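import Pool.Agent.Helper2.UN.CDefs
import Pool.Agent.Helper16.UN.CR2

/-!
Block CR1: the linear form attached to a root of value one.
-/

open Module

namespace UN

variable {K : Type*} [Field K] [CharZero K] {M : Type*} [AddCommGroup M] [Module K M]
  {B : LinearMap.BilinForm K M} {s : M →ₗ[K] K} {c : K} {Φ X : Finset M}

namespace CR1

omit [CharZero K] in
theorem sum_refl (h : USL B s c Φ X) {g : M} (hg : g ∈ Φ) (F : M → K) :
    ∑ x ∈ X, F (x - B x g • g) = ∑ x ∈ X, F x := by
  have hinv : ∀ x : M, (x - B x g • g) - B (x - B x g • g) g • g = x := by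
    intro x
    simp only [map_sub, map_smul, LinearMap.sub_apply, LinearMap.smul_apply, smul_eq_mul,
      h.two g hg]
    rw [show B x g - B x g * 2 = -B x g by ring, neg_smul]
    abel
  refine Finset.sum_bij' (fun x _ => x - B x g • g) (fun x _ => x - B x g • g) ?_ ?_ ?_ ?_ ?_
  · intro x hx
    exact CR2.refl_mem h hx hg
  · intro x hx
    exact CR2.refl_mem h hx hg
  · intro x _
    exact hinv x
  · intro x _
    exact hinv x
  · intro x _
    rfl

theorem sum_zero (h : USL B s c Φ X) {g : M} (hg : g ∈ Φ) {F : M → K}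
    (hF : ∀ x ∈ X, F (x - B x g • g) = - F x) : ∑ x ∈ X, F x = 0 := by
  have h1 := sum_refl h hg F
  rw [Finset.sum_congr rfl hF, Finset.sum_neg_distrib] at h1
  have h2 : (2 : K) * ∑ x ∈ X, F x = 0 := by linear_combination -h1
  exact (mul_eq_zero.mp h2).resolve_left two_ne_zero

/-- The form. -/
noncomputable def lf (B : LinearMap.BilinForm K M) (X : Finset M) (a : M) : M →ₗ[K] K :=
  ∑ x ∈ X, ((B x a) ^ 2) • B x

omit [CharZero K] in
theorem lf_apply (a m : M) : lf B X a m = ∑ x ∈ X, (B x a) ^ 2 * B x m := by
  simp [lf]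

theorem lf_zero (h : USL B s c Φ X) {a g : M} (hg : g ∈ Φ)
    (hag : B g a = 0 ∨ g = a) : lf B X a g = 0 := by
  rw [lf_apply]
  apply sum_zero h hg
  intro x _
  simp only [map_sub, map_smul, LinearMap.sub_apply, LinearMap.smul_apply, smul_eq_mul,
    h.two g hg]
  rcases hag with h1 | h1
  · rw [h1]; ring
  · subst h1
    rw [h.two g hg]
    ring

end CR1

open Classical in
/-- CR1 -/
theorem USL.local_form (h : USL B s c Φ X)
    (hpq : (X.filter (fun x => s x = c)).card ≠ (X.filter (fun x => s x = c - 1)).card)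
    {a : M} (ha : a ∈ Φ) (hsa : s a = 1) :
    ∃ l : M →ₗ[K] K, l a = 0 ∧ (∀ g ∈ Φ, B a g = 0 → l g = 0) ∧
      (∀ b ∈ Φ, B a b = 1 → l b ≠ 0) := by
  have hz : ∀ g ∈ Φ, B a g = 0 → CR1.lf B X a g = 0 := fun g hg hag =>
    CR1.lf_zero h hg (Or.inl (by rw [h.symm]; exact hag))
  refine ⟨CR1.lf B X a, CR1.lf_zero h ha (Or.inr rfl), hz, ?_⟩
  intro b hb hab hlb
  apply hpq
  set l := CR1.lf B X a with hl
  have hla : l a = 0 := CR1.lf_zero h ha (Or.inr rfl)
  -- `l` vanishes on the neighbours
  have hN : ∀ b' ∈ Φ, B a b' = 1 → l b' = 0 := by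
    have key : ∀ b₁ ∈ Φ, ∀ b₂ ∈ Φ, B a b₁ = 1 → B a b₂ = 1 → B b₁ b₂ = 1 → l b₁ = 0 →
        l b₂ = 0 := by
      intro b₁ h₁ b₂ h₂ ha₁ ha₂ h12 hl1
      have h3 := h.sub b₁ h₁ b₂ h₂ h12
      have h4 := hz _ h3 (by rw [map_sub, ha₁, ha₂, sub_self])
      rw [map_sub, hl1, zero_sub, neg_eq_zero] at h4
      exact h4
    intro b' hb' hab'
    by_cases e1 : b = b'
    · rw [← e1]; exact hlb
    by_cases e2 : b = -b'
    · exfalso
      rw [e2, map_neg, hab'] at hab
      have : (2 : K) = 0 := by linear_combination -hab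
      exact two_ne_zero this
    rcases h.pair b hb b' hb' e1 e2 with h1 | h1 | h1
    · -- the sum is a root with pairing two
      have h2 : B b (-b') = 1 := by rw [map_neg, h1, neg_neg]
      have h3 := h.sub b hb (-b') (h.neg b' hb') h2
      rw [sub_neg_eq_add] at h3
      have h4 : B a (b + b') = 2 := by rw [map_add, hab, hab']; norm_num
      by_cases e3 : a = b + b'
      · have h5 : l a = l b + l b' := by rw [e3, map_add]
        rw [hla, hlb, zero_add] at h5
        exact h5.symm
      · exfalso
        by_cases e4 : a = -(b + b')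
        · have h5 := h.two a ha
          rw [e4] at h4
          rw [e4, map_neg, h4] at h5
          have : (4 : K) = 0 := by linear_combination -h5
          exact (by norm_num : (4 : K) ≠ 0) this
        · rcases h.pair a ha _ h3 e3 e4 with h5 | h5 | h5 <;> rw [h4] at h5
          · have : (3 : K) = 0 := by linear_combination h5
            exact (by norm_num : (3 : K) ≠ 0) this
          · exact two_ne_zero h5
          · have : (1 : K) = 0 := by linear_combination h5
            exact one_ne_zero this
    · -- `a - b'` is a neighbour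
      have h2 := h.sub a ha b' hb' hab'
      have h3 : B a (a - b') = 1 := by rw [map_sub, h.two a ha, hab']; norm_num
      have h4 : B b (a - b') = 1 := by rw [map_sub, h.symm b a, hab, h1, sub_zero]
      have h5 := key b hb _ h2 hab h3 h4 hlb
      rw [map_sub, hla, zero_sub, neg_eq_zero] at h5
      exact h5
    · exact key b hb b' hb' hab hab' h1 hlb
  -- `l` vanishes on the roots
  have hall : ∀ g ∈ Φ, l g = 0 := by
    intro g hg
    by_cases e1 : a = g
    · rw [← e1]; exact hla
    by_cases e2 : a = -g
    · have : g = -a := by rw [e2, neg_neg]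
      rw [this, map_neg, hla, neg_zero]
    rcases h.pair a ha g hg e1 e2 with h1 | h1 | h1
    · have h2 := hN (-g) (h.neg g hg) (by rw [map_neg, h1, neg_neg])
      rwa [map_neg, neg_eq_zero] at h2
    · exact hz g hg h1
    · exact hN g hg h1
  -- the vector
  set v : M := ∑ x ∈ X, ((B x a) ^ 2) • x with hv
  have hv0 : v = 0 := by
    apply h.hit
    intro g hg _
    have h1 : B v g = l g := by
      rw [hl, CR1.lf_apply, hv]
      simp
    rw [h1, hall g hg]
  have hs : ∑ x ∈ X, (B x a) ^ 2 * s x = 0 := by
    have h1 : s v = ∑ x ∈ X, (B x a) ^ 2 * s x := by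
      rw [hv]; simp
    rw [← h1, hv0, map_zero]
  have hcube : ∑ x ∈ X, (B x a) ^ 3 = 0 := by
    apply CR1.sum_zero h ha
    intro x _
    simp only [map_sub, map_smul, LinearMap.sub_apply, LinearMap.smul_apply, smul_eq_mul,
      h.two a ha]
    ring
  have hval : ∀ x ∈ X, 2 * ((B x a) ^ 2 * s x) = (2 * c - 1) * (B x a) ^ 2 + (B x a) ^ 3 := by
    intro x hx
    rcases h.small x hx a ha with h1 | h1 | h1
    · have h2 : s x = c - 1 := by
        rcases h.sx x hx with h3 | h3
        · exfalso
          have h4 : B x (-a) = 1 := by rw [map_neg, h1, neg_neg]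
          have h5 := h.sx _ (h.xsub x hx (-a) (h.neg a ha) h4)
          rw [map_sub, map_neg, h3, hsa] at h5
          rcases h5 with h5 | h5
          · have : (1 : K) = 0 := by linear_combination h5
            exact one_ne_zero this
          · have : (2 : K) = 0 := by linear_combination h5
            exact two_ne_zero this
        · exact h3
      rw [h1, h2]; ring
    · rw [h1]; ring
    · have h2 : s x = c := by
        rcases h.sx x hx with h3 | h3
        · exact h3
        · exfalso
          have h5 := h.sx _ (h.xsub x hx a ha h1)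
          rw [map_sub, h3, hsa] at h5
          rcases h5 with h5 | h5
          · have : (2 : K) = 0 := by linear_combination -h5
            exact two_ne_zero this
          · have : (1 : K) = 0 := by linear_combination -h5
            exact one_ne_zero this
      rw [h1, h2]; ring
  have hsq : ∑ x ∈ X, (B x a) ^ 2 ≠ 0 := by
    have h1 : ∀ x ∈ X, (B x a) ^ 2 = if B x a ≠ 0 then 1 else 0 := by
      intro x hx
      rcases h.small x hx a ha with h1 | h1 | h1 <;> rw [h1] <;> simp
    rw [Finset.sum_congr rfl h1, ← Finset.sum_filter, Finset.sum_const, nsmul_eq_mul, mul_one,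
      Nat.cast_ne_zero, ← Nat.pos_iff_ne_zero, Finset.card_pos]
    obtain ⟨x, hx, hxa⟩ := h.faith a ha
    exact ⟨x, Finset.mem_filter.mpr ⟨hx, by rw [hxa]; exact one_ne_zero⟩⟩
  have hc : 2 * c - 1 = 0 := by
    have h1 : (2 * c - 1) * ∑ x ∈ X, (B x a) ^ 2 = 0 := by
      have h2 : 2 * ∑ x ∈ X, (B x a) ^ 2 * s x =
          (2 * c - 1) * ∑ x ∈ X, (B x a) ^ 2 + ∑ x ∈ X, (B x a) ^ 3 := by
        rw [Finset.mul_sum, Finset.mul_sum, ← Finset.sum_add_distrib]
        exact Finset.sum_congr rfl hval
      rw [hs, hcube] at h2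
      linear_combination -h2
    exact (mul_eq_zero.mp h1).resolve_right hsq
  -- the sum of the weights is zero
  have hu : ∑ x ∈ X, x = 0 := by
    apply h.hit
    intro g hg _
    have h1 : B (∑ x ∈ X, x) g = ∑ x ∈ X, B x g := by simp
    rw [h1]
    apply CR1.sum_zero h hg
    intro x _
    simp only [map_sub, map_smul, LinearMap.sub_apply, LinearMap.smul_apply, smul_eq_mul,
      h.two g hg]
    ring
  have hsum : ∑ x ∈ X, s x = 0 := by rw [← map_sum, hu, map_zero]
  have hne : c ≠ c - 1 := by
    intro h1
    have : (1 : K) = 0 := by linear_combination h1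
    exact one_ne_zero this
  have hsplit : ∑ x ∈ X, s x = ((X.filter (fun x => s x = c)).card : K) * c +
      ((X.filter (fun x => s x = c - 1)).card : K) * (c - 1) := by
    rw [← Finset.sum_filter_add_sum_filter_not X (fun x => s x = c)]
    congr 1
    · rw [Finset.sum_congr rfl (fun x hx => (Finset.mem_filter.mp hx).2), Finset.sum_const,
        nsmul_eq_mul]
    · have e : X.filter (fun x => ¬ s x = c) = X.filter (fun x => s x = c - 1) := by
        ext x
        rw [Finset.mem_filter, Finset.mem_filter]
        constructor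
        · rintro ⟨hx, h1⟩
          exact ⟨hx, (h.sx x hx).resolve_left h1⟩
        · rintro ⟨hx, h1⟩
          exact ⟨hx, by rw [h1]; exact hne.symm⟩
      rw [e, Finset.sum_congr rfl (fun x hx => (Finset.mem_filter.mp hx).2), Finset.sum_const,
        nsmul_eq_mul]
  rw [hsplit] at hsum
  have hfin : (((X.filter (fun x => s x = c)).card : ℕ) : K) =
      ((X.filter (fun x => s x = c - 1)).card : ℕ) := by
    linear_combination 2 * hsum - (((X.filter (fun x => s x = c)).card : K) +
      ((X.filter (fun x => s x = c - 1)).card : K)) * hc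
  exact_mod_cast hfin

end UN
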