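import Pool.Agent.Helper54.MT.Roots

/-!
Combinatorial structures for unitary Mumford-Tate pairs.
-/

open Module

namespace UN

/-- Simply laced systems: roots `Φ` of squared length two, weights `X`, coweight `s` which takes
the values `c` and `c - 1` on the weights. -/
structure USL {K : Type*} [Field K] {M : Type*} [AddCommGroup M] [Module K M]
    (B : LinearMap.BilinForm K M) (s : M →ₗ[K] K) (c : K) (Φ X : Finset M) : Prop where
  symm : ∀ x y, B x y = B y x
  two : ∀ a ∈ Φ, B a a = 2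
  neg : ∀ a ∈ Φ, -a ∈ Φ
  pair : ∀ a ∈ Φ, ∀ b ∈ Φ, a ≠ b → a ≠ -b → B a b = -1 ∨ B a b = 0 ∨ B a b = 1
  sub : ∀ a ∈ Φ, ∀ b ∈ Φ, B a b = 1 → a - b ∈ Φ
  small : ∀ x ∈ X, ∀ a ∈ Φ, B x a = -1 ∨ B x a = 0 ∨ B x a = 1
  xsub : ∀ x ∈ X, ∀ a ∈ Φ, B x a = 1 → x - a ∈ X
  sx : ∀ x ∈ X, s x = c ∨ s x = c - 1
  faith : ∀ a ∈ Φ, ∃ x ∈ X, B x a = 1
  /-- different weights are separated by a root -/
  sep : ∀ x ∈ X, ∀ y ∈ X, x ≠ y → ∃ g ∈ Φ, B x g = 1 ∧ B y g = -1
  /-- there are roots of value one -/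
  ex : ∃ a ∈ Φ, s a = 1
  /-- the roots of value one span everything -/
  hit : ∀ m : M, (∀ a ∈ Φ, s a = 1 → B m a = 0) → m = 0
  /-- the roots of value one are connected -/
  conn : ∀ D : Set M, (∃ a ∈ Φ, s a = 1 ∧ a ∈ D) →
    (∀ a ∈ Φ, ∀ b ∈ Φ, s a = 1 → s b = 1 → B a b = 1 → a ∈ D → b ∈ D) →
    ∀ a ∈ Φ, s a = 1 → a ∈ D

open Pool.Agent.Helper54.MT

variable {ι K M N : Type*} [Field K] [CharZero K] [AddCommGroup M] [Module K M]
  [AddCommGroup N] [Module K N]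

/-- A finite set of small weights, stable under the reflections, whose elements differ by sums of
roots. -/
structure WSet (P : RootPairing ι K M N) [Fintype ι] [P.IsCrystallographic] (X : Finset M) :
    Prop where
  small : ∀ x ∈ X, Small P x
  refl : ∀ x ∈ X, ∀ i, P.reflection i x ∈ X
  conn : ∀ x ∈ X, ∀ y ∈ X, ∃ l : List ι, x = y + (l.map P.root).sum

/-- The situation: a set of small weights and a coweight with values `c`, `c - 1` on it. -/
structure USit (P : RootPairing ι K M N) [Fintype ι] [P.IsCrystallographic] (X : Finset M)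
    (s : M →ₗ[K] K) (c : K) : Prop where
  ws : WSet P X
  sx : ∀ x ∈ X, s x = c ∨ s x = c - 1
  faith : ∀ i, ∃ x ∈ X, P.coroot' i x = 1
  ex : ∃ i, s (P.root i) ≠ 0

end UN
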