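import Pool.Agent.Helper93.SR.Pairs
import Pool.Agent.Helper21.MT.Norm

/-!
Operators commuting with a skew involution: restriction to an eigenspace.
-/

open Module

namespace UN

open MTP

variable {K : Type*} [Field K] [CharZero K] {V : Type*} [AddCommGroup V] [Module K V]
  [FiniteDimensional K V] {ω : LinearMap.BilinForm K V} {z : Module.End K V}

/-- The eigenspace of `z` for the eigenvalue one. -/
abbrev Wz (z : Module.End K V) : Submodule K V := LinearMap.ker (z - 1)

omit [CharZero K] [FiniteDimensional K V] in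
lemma mem_Wz {v : V} : v ∈ Wz z ↔ z v = v := by
  rw [LinearMap.mem_ker, LinearMap.sub_apply, Module.End.one_apply, sub_eq_zero]

omit [FiniteDimensional K V] in
lemma pp_mem (hz : z * z = 1) (v : V) : pp z v ∈ Wz z := by
  rw [mem_Wz]
  have : z * pp z = pp z := by
    unfold pp
    rw [mul_smul_comm, mul_add, hz, mul_one, add_comm]
  exact congrArg (fun f : Module.End K V => f v) this

omit [FiniteDimensional K V] in
lemma pp_of_mem {v : V} (hv : v ∈ Wz z) : pp z v = v := by
  rw [mem_Wz] at hv
  unfold pp
  rw [LinearMap.smul_apply, LinearMap.add_apply, hv, Module.End.one_apply, ← two_smul K v,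
    smul_smul, inv_mul_cancel₀ two_ne_zero, one_smul]

omit [CharZero K] [FiniteDimensional K V] in
lemma comm_mem {x : Module.End K V} (hx : x * z = z * x) {v : V} (hv : v ∈ Wz z) :
    x v ∈ Wz z := by
  rw [mem_Wz] at hv ⊢
  have := congrArg (fun f : Module.End K V => f v) hx
  simp only [Module.End.mul_apply] at this
  rw [← this, hv]

/-- The compression of an operator to the eigenspace. -/
noncomputable def RR (hz : z * z = 1) : Module.End K V →ₗ[K] Module.End K (Wz z) where
  toFun x := ((pp z * x).codRestrict (Wz z) (fun v => pp_mem hz (x v))).domRestrict (Wz z)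
  map_add' x y := by
    ext v
    simp [mul_add]
  map_smul' c x := by
    ext v
    simp

omit [FiniteDimensional K V] in
lemma RR_coe (hz : z * z = 1) {x : Module.End K V} (hx : x * z = z * x) (w : Wz z) :
    ((RR hz x w : Wz z) : V) = x w := by
  change pp z (x w) = x w
  exact pp_of_mem (comm_mem hx w.2)

omit [FiniteDimensional K V] in
lemma RR_mul (hz : z * z = 1) {x y : Module.End K V} (hy : y * z = z * y) :
    RR hz (x * y) = RR hz x * RR hz y := by
  ext w
  change pp z (x (y w)) = pp z (x ((RR hz y w : Wz z) : V))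
  rw [RR_coe hz hy]

omit [FiniteDimensional K V] in
lemma RR_one (hz : z * z = 1) : RR hz (1 : Module.End K V) = 1 := by
  ext w
  exact pp_of_mem w.2

omit [FiniteDimensional K V] in
lemma RR_z (hz : z * z = 1) : RR hz z = 1 := by
  ext w
  rw [RR_coe hz rfl]
  exact mem_Wz.mp w.2

/-- The trace of the restriction. -/
lemma RR_trace (hz : z * z = 1) {x : Module.End K V} (hx : x * z = z * x) :
    LinearMap.trace K (Wz z) (RR hz x) =
      (2 : K)⁻¹ * (LinearMap.trace K V x + LinearMap.trace K V (z * x)) := by
  have h1 := LinearMap.trace_restrict_eq_of_forall_mem (Wz z) (pp z * x)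
    (fun v => pp_mem hz (x v)) (fun v _ => pp_mem hz (x v))
  have h2 : (pp z * x).restrict (p := Wz z) (q := Wz z) (fun v _ => pp_mem hz (x v)) =
      RR hz x := by
    ext w
    rfl
  rw [h2] at h1
  rw [h1]
  unfold pp
  rw [smul_mul_assoc, map_smul, add_mul, one_mul, map_add, smul_eq_mul]

/-- Skew operators commuting with `z`. -/
structure InC (ω : LinearMap.BilinForm K V) (z x : Module.End K V) : Prop where
  sk : IsSk ω x
  comm : x * z = z * x

omit [CharZero K] [FiniteDimensional K V] in
lemma InC.add {x y : Module.End K V} (hx : InC ω z x) (hy : InC ω z y) : InC ω z (x + y) where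
  sk := by
    intro v w
    rw [LinearMap.add_apply, LinearMap.add_apply, map_add, map_add, LinearMap.add_apply,
      hx.sk v w, hy.sk v w]
    ring
  comm := by rw [add_mul, mul_add, hx.comm, hy.comm]

omit [CharZero K] [FiniteDimensional K V] in
lemma InC.smul {x : Module.End K V} (c : K) (hx : InC ω z x) : InC ω z (c • x) where
  sk := by
    intro v w
    rw [LinearMap.smul_apply, LinearMap.smul_apply, map_smul, map_smul, LinearMap.smul_apply,
      hx.sk v w, smul_eq_mul, smul_eq_mul]
    ring
  comm := by rw [smul_mul_assoc, mul_smul_comm, hx.comm]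

omit [CharZero K] [FiniteDimensional K V] in
lemma InC.zero : InC ω z (0 : Module.End K V) where
  sk := by intro v w; simp
  comm := by simp

omit [CharZero K] [FiniteDimensional K V] in
lemma InC.sub {x y : Module.End K V} (hx : InC ω z x) (hy : InC ω z y) : InC ω z (x - y) := by
  have := hx.add (hy.smul (-1))
  rwa [neg_one_smul, ← sub_eq_add_neg] at this

omit [CharZero K] [FiniteDimensional K V] in
lemma InC.br {x y : Module.End K V} (hx : InC ω z x) (hy : InC ω z y) :
    InC ω z (x * y - y * x) where
  sk := by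
    intro v w
    simp only [LinearMap.sub_apply, Module.End.mul_apply, map_sub]
    rw [hx.sk, hy.sk, hy.sk, hx.sk]
    ring
  comm := by
    rw [sub_mul, mul_sub, mul_assoc, hy.comm, ← mul_assoc, hx.comm, mul_assoc, mul_assoc,
      hx.comm, ← mul_assoc y, hy.comm, mul_assoc]

omit [FiniteDimensional K V] in
/-- The complementary eigenspace: `x` is determined by its restriction. -/
lemma InC.eq_zero (hω : ω.Nondegenerate) (hz : z * z = 1) (hzs : IsSk ω z)
    {x : Module.End K V} (hx : InC ω z x) (h : RR hz x = 0) : x = 0 := by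
  have h1 : ∀ w, z w = w → x w = 0 := by
    intro w hw
    have := RR_coe hz hx.comm ⟨w, mem_Wz.mpr hw⟩
    rw [h] at this
    exact this.symm
  -- vectors in the same eigenspace are orthogonal
  have h2 : ∀ v w, z v = -v → z w = -w → ω v w = 0 := by
    intro v w hv hw
    have := hzs v w
    rw [hv, hw, map_neg, map_neg, LinearMap.neg_apply] at this
    have h3 : (2 : K) * ω v w = 0 := by linear_combination -this
    exact (mul_eq_zero.mp h3).resolve_left two_ne_zero
  have hz2 : ∀ v, z (z v) = v := fun v => congrArg (fun f : Module.End K V => f v) hz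
  have hdec : ∀ v, v = (2 : K)⁻¹ • (v + z v) + (2 : K)⁻¹ • (v - z v) := by
    intro v
    rw [← smul_add]
    have : v + z v + (v - z v) = (2 : K) • v := by rw [two_smul]; abel
    rw [this, smul_smul, inv_mul_cancel₀ two_ne_zero, one_smul]
  have ha : ∀ v, z ((2 : K)⁻¹ • (v + z v)) = (2 : K)⁻¹ • (v + z v) := by
    intro v; rw [map_smul, map_add, hz2, add_comm]
  have hb : ∀ v, z ((2 : K)⁻¹ • (v - z v)) = -((2 : K)⁻¹ • (v - z v)) := by
    intro v; rw [map_smul, map_sub, hz2, ← smul_neg, neg_sub]
  have hcz : ∀ v, x (z v) = z (x v) :=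
    fun v => congrArg (fun f : Module.End K V => f v) hx.comm
  have h3 : ∀ v, z v = -v → x v = 0 := by
    intro v hv
    apply hω.1
    intro w
    have hxv : z (x v) = -(x v) := by rw [← hcz, hv, map_neg]
    rw [hdec w, map_add]
    rw [h2 _ _ hxv (hb w), add_zero, hx.sk, h1 _ (ha w), map_zero, neg_zero]
  ext v
  rw [hdec v, map_add, h1 _ (ha v), h3 _ (hb v), add_zero]
  rfl

/-- The ranks. -/
lemma InC.rk_eq (hω : ω.Nondegenerate) (hz : z * z = 1) (hzs : IsSk ω z)
    {x : Module.End K V} (hx : InC ω z x) : MTP.rk x = 2 * MTP.rk (RR hz x) := by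
  have hcp : pp z * x = x * pp z := by
    unfold pp; rw [smul_mul_assoc, mul_smul_comm, add_mul, mul_add, hx.comm, one_mul, mul_one]
  have hcq : qq z * x = x * qq z := by
    unfold qq; rw [smul_mul_assoc, mul_smul_comm, sub_mul, mul_sub, hx.comm, one_mul, mul_one]
  have e : x = x * pp z + x * qq z := by rw [← mul_add, pp_add_qq, mul_one]
  have h1 : MTP.rk (x * pp z + x * qq z) = MTP.rk (x * pp z) + MTP.rk (x * qq z) := by
    apply rk_add (p := pp z) (q := pp z)
    · rw [← mul_assoc, hcp, mul_assoc, pp_mul_pp hz]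
    · rw [← mul_assoc, hcp, mul_assoc, pp_mul_qq hz, mul_zero]
    · rw [mul_assoc, pp_mul_pp hz]
    · rw [mul_assoc, qq_mul_pp hz, mul_zero]
  have h2 : MTP.rk (x * pp z) = MTP.rk (-(x * qq z)) := by
    apply rk_adjoint hω
    intro v w
    rw [← hcq]
    simp only [Module.End.mul_apply, LinearMap.neg_apply, map_neg]
    rw [hx.sk, adj_pp hzs]
  have h3 : MTP.rk (x * pp z) = MTP.rk (RR hz x) := by
    have : LinearMap.range (x * pp z) = (LinearMap.range (RR hz x)).map (Wz z).subtype := by
      apply le_antisymm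
      · rintro _ ⟨v, rfl⟩
        exact ⟨RR hz x ⟨pp z v, pp_mem hz v⟩, ⟨_, rfl⟩, RR_coe hz hx.comm _⟩
      · rintro _ ⟨_, ⟨w, rfl⟩, rfl⟩
        refine ⟨w, ?_⟩
        rw [Module.End.mul_apply, pp_of_mem w.2]
        exact (RR_coe hz hx.comm w).symm
    unfold MTP.rk
    rw [this, Submodule.finrank_map_subtype_eq]
  rw [rk_neg] at h2
  rw [e, h1, ← h2, h3, ← e]
  ring

end UN
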