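import Pool.Agent.Helper93.SR.Str
import Pool.Agent.Helper2.UN.U0

/-!
Groups of symplectic similitudes commuting with a skew involution and generated by the
conjugates, under the group and under a set of semilinear symmetries, of one cocharacter of
weights zero and one: abstract form.
-/

set_option linter.unusedSimpArgs false
set_option linter.unusedSectionVars false
set_option linter.unusedVariables false

open Module

namespace UN

open MTP

variable {K : Type*} [Field K] {V : Type*} [AddCommGroup V] [Module K V] [FiniteDimensional K V]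

/-- The component of `s` orthogonal to `z`. -/
noncomputable def nz (z s : Module.End K V) : Module.End K V :=
  s - (LinearMap.trace K V (z * s) / (finrank K V : K)) • z

/-- The generators of the Lie algebra. -/
def UI (ω : LinearMap.BilinForm K V) (z : Module.End K V) (G : Set (Module.End K V))
    (T : Set (Module.End K V ≃+* Module.End K V)) (p0 : Module.End K V) :
    Set (Module.End K V) :=
  {x | ∃ s ∈ SI ω G T p0, x = nz z s}

/-- The Lie algebra. -/
noncomputable def UL (ω : LinearMap.BilinForm K V) (z : Module.End K V) (G : Set (Module.End K V))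
    (T : Set (Module.End K V ≃+* Module.End K V)) (p0 : Module.End K V) :
    Submodule K (Module.End K V) := lieGen K (UI ω z G T p0)

/-- The hypotheses of the group theorem, in abstract form. -/
structure UStr (ω : LinearMap.BilinForm K V) (z : Module.End K V) (G : Set (Module.End K V))
    (T : Set (Module.End K V ≃+* Module.End K V)) (p0 : Module.End K V) : Prop where
  nt : Nontrivial V
  nd : ω.Nondegenerate
  alt : ω.IsAlt
  zz : z * z = 1
  zsk : IsSk ω z
  one : 1 ∈ G
  mul : ∀ g ∈ G, ∀ h ∈ G, g * h ∈ G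
  inv : ∀ g ∈ G, ∃ h ∈ G, g * h = 1 ∧ h * g = 1
  sim : ∀ g ∈ G, ∃ c : K, ∀ v w, ω (g v) (g w) = c * ω v w
  gz : ∀ g ∈ G, g * z = z * g
  irr : ∀ W : Submodule K V, W ≤ Wz z → (∀ g ∈ G, ∀ w ∈ W, g w ∈ W) → W = ⊥ ∨ W = Wz z
  semi : ∀ τ ∈ T, ∃ σ : K ≃+* K, ∀ (c : K) (x : Module.End K V), τ (c • x) = σ c • τ x
  rk : ∀ τ ∈ T, ∀ x, rk (τ x) = rk x
  tz : ∀ τ ∈ T, τ z = z ∨ τ z = -z
  tone : RingEquiv.refl _ ∈ T
  tmul : ∀ τ ∈ T, ∀ τ' ∈ T, τ'.trans τ ∈ T
  tinv : ∀ τ ∈ T, τ.symm ∈ T
  tgrp : ∀ τ ∈ T, ∀ g ∈ G, τ g ∈ G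
  idem : p0 * p0 = p0
  cpt : ∀ p ∈ SC G T p0, ∀ t : K, t ≠ 0 → 1 + (t - 1) • p ∈ G
  genA : ∀ M : Subalgebra K (Module.End K V), (∀ p ∈ SC G T p0, p ∈ M) → ∀ g ∈ G, g ∈ M
  genB : ∀ M : Submodule K (Module.End K V),
    (∀ p ∈ SC G T p0, ∀ t : K, t ≠ 0 → ∀ x ∈ M,
      (1 + (t - 1) • p) * x * (1 + (t⁻¹ - 1) • p) ∈ M) →
    ∀ g ∈ G, ∀ h ∈ G, g * h = 1 → h * g = 1 → ∀ x ∈ M, g * x * h ∈ M

/-- The trace of an idempotent operator. -/
lemma trace_idem [CharZero K] {e : Module.End K V} (he : e * e = e) :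
    LinearMap.trace K V e = (MTP.rk e : K) := by
  have h : LinearMap.IsProj (LinearMap.range e) e := by
    constructor
    · intro v; exact ⟨v, rfl⟩
    · rintro _ ⟨v, rfl⟩
      exact congrArg (fun f : Module.End K V => f v) he
  rw [h.trace]
  rfl

/-- Traces of involutions are preserved by symmetries. -/
lemma trace_invol [CharZero K] {τ : Module.End K V ≃+* Module.End K V} {σ : K ≃+* K}
    (hσ : ∀ (c : K) (x : Module.End K V), τ (c • x) = σ c • τ x)
    (hrk : ∀ x, MTP.rk (τ x) = MTP.rk x) {x : Module.End K V} (hx : x * x = 1) :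
    LinearMap.trace K V (τ x) = LinearMap.trace K V x ∧
      σ (LinearMap.trace K V x) = LinearMap.trace K V x := by
  have h1 := trace_idem (pp_mul_pp hx)
  have hτx : τ x * τ x = 1 := by rw [← map_mul, hx, map_one]
  have h2 := trace_idem (pp_mul_pp hτx)
  have hτ2 : σ (2 : K)⁻¹ = (2 : K)⁻¹ := by rw [map_inv₀, map_ofNat]
  have h3 : τ (pp x) = pp (τ x) := by
    unfold pp
    rw [hσ, hτ2, map_add, map_one]
  have h4 : MTP.rk (pp (τ x)) = MTP.rk (pp x) := by rw [← h3, hrk]
  rw [h4, ← h1] at h2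
  have e1 : ∀ y : Module.End K V, LinearMap.trace K V y =
      2 * LinearMap.trace K V (pp y) - (finrank K V : K) := by
    intro y
    unfold pp
    rw [map_smul, map_add, LinearMap.trace_one, smul_eq_mul, ← mul_assoc,
      mul_inv_cancel₀ two_ne_zero]
    ring
  constructor
  · rw [e1, e1 x, h2]
  · rw [e1 x, h1, map_sub, map_mul, map_ofNat, map_natCast, map_natCast]

lemma nz_smul_z [CharZero K] {z s : Module.End K V} (hz : z * z = 1) [Nontrivial V] :
    LinearMap.trace K V (z * nz z s) = 0 := by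
  have hn : (finrank K V : K) ≠ 0 := by
    rw [Nat.cast_ne_zero]; exact Module.finrank_pos.ne'
  unfold nz
  rw [mul_sub, mul_smul_comm, hz, map_sub, map_smul, LinearMap.trace_one, smul_eq_mul,
    div_mul_cancel₀ _ hn, sub_self]

namespace UStr
variable {ω : LinearMap.BilinForm K V} {z : Module.End K V} {G : Set (Module.End K V)}
  {T : Set (Module.End K V ≃+* Module.End K V)} {p0 : Module.End K V} (D : UStr ω z G T p0)
include D

lemma exists_ne_form : ∃ v w, ω v w ≠ 0 := by
  have := D.nt
  obtain ⟨v, hv⟩ := exists_ne (0 : V)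
  by_contra hcon
  push Not at hcon
  exact hv (D.nd.1 v (hcon v))

lemma c1 {p : Module.End K V} (hp : p ∈ SC G T p0) : p * p = p := by
  obtain ⟨τ, hτ, g, hg, h, hh, hgh, hhg, rfl⟩ := hp
  have h1 : τ p0 * τ p0 = τ p0 := by rw [← map_mul, D.idem]
  calc g * τ p0 * h * (g * τ p0 * h) = g * τ p0 * (h * g) * τ p0 * h := by
        simp only [mul_assoc]
    _ = g * (τ p0 * τ p0) * h := by rw [hhg, mul_one]; simp only [mul_assoc]
    _ = _ := by rw [h1]

/-- Trichotomy. -/
lemma c2 [CharZero K] {p : Module.End K V} (hp : p ∈ SC G T p0) :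
    IsSk ω ((2 : K) • p - 1) ∨ p = 0 ∨ p = 1 := by
  have hpp := D.c1 hp
  obtain ⟨c, hc⟩ := D.sim _ (D.cpt p hp 2 two_ne_zero)
  have e : (1 + ((2 : K) - 1) • p) = 1 + p := by norm_num
  rw [e] at hc
  have h4 := four hpp hc
  have hnd := D.nd
  by_cases c2 : c = 2
  · left
    intro v w
    obtain ⟨a1, -, -, a4⟩ := h4 v w
    have b1 : ω (p v) (p w) = 0 := by
      rw [c2] at a1; exact (mul_eq_zero.mp a1).resolve_left (by norm_num)
    have b4 : ω (v - p v) (w - p w) = 0 := by
      rw [c2] at a4; exact (mul_eq_zero.mp a4).resolve_left (by norm_num)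
    simp only [map_sub, LinearMap.sub_apply, LinearMap.smul_apply, map_smul,
      Module.End.one_apply, smul_eq_mul] at b1 b4 ⊢
    linear_combination 2 * b1 - 2 * b4
  · right
    have b2 : ∀ v w, ω (p v) (w - p w) = 0 := fun v w =>
      (mul_eq_zero.mp (h4 v w).2.1).resolve_left (sub_ne_zero.mpr c2)
    have b3 : ∀ v w, ω (v - p v) (p w) = 0 := fun v w =>
      (mul_eq_zero.mp (h4 v w).2.2.1).resolve_left (sub_ne_zero.mpr c2)
    by_cases c4 : c = 4
    · right
      apply LinearMap.ext
      intro v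
      have b4 : ∀ w, ω (v - p v) (w - p w) = 0 := by
        intro w
        have := (h4 v w).2.2.2
        rw [c4] at this
        exact (mul_eq_zero.mp this).resolve_left (by norm_num)
      have : v - p v = 0 := by
        apply hnd.1
        intro w
        have e : w = p w + (w - p w) := by abel
        rw [e, map_add, b3, b4, add_zero]
      rw [sub_eq_zero] at this
      exact this.symm
    · left
      apply LinearMap.ext
      intro v
      have b1 : ∀ v w, ω (p v) (p w) = 0 := fun v w =>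
        (mul_eq_zero.mp (h4 v w).1).resolve_left (sub_ne_zero.mpr c4)
      have : p v = 0 := by
        apply hnd.1
        intro w
        have e : w = p w + (w - p w) := by abel
        rw [e, map_add, b1, b2, add_zero]
      exact this

lemma c3 {p : Module.End K V} (hp : p ∈ SC G T p0) {a b : Module.End K V} (ha : a ∈ G)
    (hb : b ∈ G) (hab : a * b = 1) (hba : b * a = 1) : a * p * b ∈ SC G T p0 := by
  obtain ⟨τ, hτ, g, hg, h, hh, hgh, hhg, rfl⟩ := hp
  refine ⟨τ, hτ, a * g, D.mul _ ha _ hg, h * b, D.mul _ hh _ hb, ?_, ?_, ?_⟩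
  · calc a * g * (h * b) = a * (g * h) * b := by simp only [mul_assoc]
      _ = 1 := by rw [hgh, mul_one, hab]
  · calc h * b * (a * g) = h * (b * a) * g := by simp only [mul_assoc]
      _ = 1 := by rw [hba, mul_one, hhg]
  · simp only [mul_assoc]

lemma c4 {p : Module.End K V} (hp : p ∈ SC G T p0) {τ' : Module.End K V ≃+* Module.End K V}
    (hτ' : τ' ∈ T) : τ' p ∈ SC G T p0 := by
  obtain ⟨τ, hτ, g, hg, h, hh, hgh, hhg, rfl⟩ := hp
  refine ⟨τ.trans τ', D.tmul _ hτ' _ hτ, τ' g, D.tgrp _ hτ' _ hg, τ' h, D.tgrp _ hτ' _ hh,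
    ?_, ?_, ?_⟩
  · rw [← map_mul, hgh, map_one]
  · rw [← map_mul, hhg, map_one]
  · rw [map_mul, map_mul]; rfl

lemma sk_ne_zero [CharZero K] {p : Module.End K V} (hp : IsSk ω ((2 : K) • p - 1)) :
    p ≠ 0 ∧ p ≠ 1 := by
  obtain ⟨v, w, hw⟩ := D.exists_ne_form
  constructor
  · rintro rfl
    have := hp v w
    simp only [smul_zero, zero_sub, LinearMap.neg_apply, Module.End.one_apply, map_neg] at this
    have h2 : (2 : K) * ω v w = 0 := by linear_combination -this
    exact hw ((mul_eq_zero.mp h2).resolve_left two_ne_zero)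
  · rintro rfl
    have := hp v w
    have e : (2 : K) • (1 : Module.End K V) - 1 = 1 := by module
    rw [e] at this
    simp only [Module.End.one_apply] at this
    have h2 : (2 : K) * ω v w = 0 := by linear_combination this
    exact hw ((mul_eq_zero.mp h2).resolve_left two_ne_zero)

lemma sk_of [CharZero K] {p : Module.End K V} (hp : p ∈ SC G T p0) (h0 : p ≠ 0)
    (h1 : p ≠ 1) : IsSk ω ((2 : K) • p - 1) := by
  rcases D.c2 hp with h | h | h
  · exact h
  · exact absurd h h0
  · exact absurd h h1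

lemma si_conj [CharZero K] {s : Module.End K V} (hs : s ∈ SI ω G T p0) {a b : Module.End K V}
    (ha : a ∈ G) (hb : b ∈ G) (hab : a * b = 1) (hba : b * a = 1) :
    a * s * b ∈ SI ω G T p0 := by
  obtain ⟨p, hp, hsk, rfl⟩ := hs
  obtain ⟨h0, h1⟩ := D.sk_ne_zero hsk
  have e : p = b * (a * p * b) * a := by
    calc p = 1 * p * 1 := by simp
      _ = (b * a) * p * (b * a) := by rw [hba]
      _ = _ := by simp only [mul_assoc]
  refine ⟨a * p * b, D.c3 hp ha hb hab hba, D.sk_of (D.c3 hp ha hb hab hba) ?_ ?_, ?_⟩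
  · intro h2; apply h0; rw [e, h2]; simp
  · intro h2; apply h1; rw [e, h2, mul_one, hba]
  · rw [mul_sub, sub_mul, mul_one, hab, mul_smul_comm, smul_mul_assoc]

lemma si_tw [CharZero K] {s : Module.End K V} (hs : s ∈ SI ω G T p0)
    {τ : Module.End K V ≃+* Module.End K V} (hτ : τ ∈ T) : τ s ∈ SI ω G T p0 := by
  obtain ⟨p, hp, hsk, rfl⟩ := hs
  obtain ⟨h0, h1⟩ := D.sk_ne_zero hsk
  obtain ⟨σ, hσ⟩ := D.semi τ hτ
  refine ⟨τ p, D.c4 hp hτ, D.sk_of (D.c4 hp hτ) ?_ ?_, ?_⟩
  · intro h2; apply h0; apply τ.injective; rw [h2, map_zero]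
  · intro h2; apply h1; apply τ.injective; rw [h2, map_one]
  · rw [map_sub, map_one, hσ]
    congr 2
    exact map_ofNat σ 2

lemma si_sq {s : Module.End K V} (hs : s ∈ SI ω G T p0) : s * s = 1 := by
  obtain ⟨p, hp, hsk, rfl⟩ := hs
  have h1 := D.c1 hp
  simp only [sub_mul, mul_sub, smul_mul_assoc, mul_smul_comm, h1, mul_one, one_mul]
  module

/-- The conjugates commute with `z`. -/
lemma sc_comm [CharZero K] {p : Module.End K V} (hp : p ∈ SC G T p0) : p * z = z * p := by
  have h1 := D.gz _ (D.cpt p hp 2 two_ne_zero)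
  have e : (1 + ((2 : K) - 1) • p) = 1 + p := by norm_num
  rw [e, add_mul, mul_add, one_mul, mul_one] at h1
  exact add_left_cancel h1

lemma si_inC [CharZero K] {s : Module.End K V} (hs : s ∈ SI ω G T p0) : InC ω z s := by
  obtain ⟨p, hp, hsk, rfl⟩ := hs
  refine ⟨hsk, ?_⟩
  rw [sub_mul, mul_sub, smul_mul_assoc, mul_smul_comm, D.sc_comm hp, one_mul, mul_one]

lemma z_inC : InC ω z z := ⟨D.zsk, rfl⟩

lemma nz_inC [CharZero K] {s : Module.End K V} (hs : s ∈ SI ω G T p0) : InC ω z (nz z s) :=
  (D.si_inC hs).sub (D.z_inC.smul _)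

lemma nz_conj [CharZero K] {s : Module.End K V} {a b : Module.End K V}
    (ha : a ∈ G) (hb : b ∈ G) (hab : a * b = 1) (hba : b * a = 1) :
    nz z (a * s * b) = a * nz z s * b := by
  have h1 : LinearMap.trace K V (z * (a * s * b)) = LinearMap.trace K V (z * s) := by
    have e : z * (a * s * b) = a * (z * s * b) := by
      calc z * (a * s * b) = (z * a) * s * b := by simp only [mul_assoc]
        _ = (a * z) * s * b := by rw [D.gz a ha]
        _ = _ := by simp only [mul_assoc]
    rw [e, LinearMap.trace_mul_comm, mul_assoc, hba, mul_one]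
  have h2 : a * z * b = z := by rw [D.gz a ha, mul_assoc, hab, mul_one]
  unfold nz
  rw [h1, mul_sub, sub_mul, mul_smul_comm, smul_mul_assoc, h2]

lemma nz_tw [CharZero K] {s : Module.End K V} (hs : s ∈ SI ω G T p0)
    {τ : Module.End K V ≃+* Module.End K V} (hτ : τ ∈ T) : nz z (τ s) = τ (nz z s) := by
  obtain ⟨σ, hσ⟩ := D.semi τ hτ
  have hss := D.si_sq hs
  have hsz := (D.si_inC hs).comm
  have hzs : z * s * (z * s) = 1 := by
    calc z * s * (z * s) = z * (s * z) * s := by simp only [mul_assoc]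
      _ = (z * z) * (s * s) := by rw [hsz]; simp only [mul_assoc]
      _ = 1 := by rw [D.zz, hss, one_mul]
  obtain ⟨h1, h2⟩ := trace_invol hσ (D.rk τ hτ) hzs
  have h3 : σ (LinearMap.trace K V (z * s) / (finrank K V : K)) =
      LinearMap.trace K V (z * s) / (finrank K V : K) := by
    rw [map_div₀, h2, map_natCast]
  unfold nz
  rw [map_sub, hσ, h3]
  rcases D.tz τ hτ with h | h
  · have e : z * τ s = τ (z * s) := by rw [map_mul, h]
    rw [e, h1, h]
  · have e : z * τ s = -τ (z * s) := by rw [map_mul, h, neg_mul, neg_neg]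
    rw [e, map_neg, h1, h]
    congr 1
    rw [neg_div, neg_smul, smul_neg]

lemma nt' : Nontrivial V := D.nt

/-- The elements of the Lie algebra. -/
lemma ul_inC [CharZero K] {x : Module.End K V} (hx : x ∈ UL ω z G T p0) :
    InC ω z x ∧ LinearMap.trace K V (z * x) = 0 := by
  have := D.nt
  let M : Submodule K (Module.End K V) :=
    { carrier := {x | InC ω z x ∧ LinearMap.trace K V (z * x) = 0}
      add_mem' := by
        rintro x y ⟨hx, hx'⟩ ⟨hy, hy'⟩
        exact ⟨hx.add hy, by rw [mul_add, map_add, hx', hy', add_zero]⟩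
      zero_mem' := ⟨InC.zero, by simp⟩
      smul_mem' := by
        rintro c x ⟨hx, hx'⟩
        exact ⟨hx.smul c, by rw [mul_smul_comm, map_smul, hx', smul_zero]⟩ }
  have : UL ω z G T p0 ≤ M := by
    apply lieGen_le
    · rintro x ⟨hx, -⟩ y ⟨hy, -⟩
      refine ⟨hx.br hy, ?_⟩
      have e1 : LinearMap.trace K V (z * (y * x)) = LinearMap.trace K V (z * (x * y)) := by
        have : z * (y * x) = y * (z * x) := by
          rw [← mul_assoc, ← hy.comm, mul_assoc]
        rw [this, LinearMap.trace_mul_comm, mul_assoc]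
      rw [mul_sub, map_sub, e1, sub_self]
    · rintro _ ⟨s, hs, rfl⟩
      exact ⟨D.nz_inC hs, nz_smul_z D.zz⟩
  exact this hx

lemma ul_br [CharZero K] {x y : Module.End K V} (hx : x ∈ UL ω z G T p0)
    (hy : y ∈ UL ω z G T p0) : x * y - y * x ∈ UL ω z G T p0 := lieGen_comm hx hy

/-- Irreducibility on the eigenspace. -/
lemma ul_irr [CharZero K] (W : Submodule K V) (hWz : W ≤ Wz z)
    (hW : ∀ x ∈ UL ω z G T p0, ∀ w ∈ W, x w ∈ W) : W = ⊥ ∨ W = Wz z := by
  apply D.irr W hWz
  let M : Subalgebra K (Module.End K V) :=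
    { carrier := {x | ∀ w ∈ W, x w ∈ W}
      mul_mem' := by
        intro x y hx hy w hw
        exact hx _ (hy w hw)
      one_mem' := by intro w hw; exact hw
      add_mem' := by
        intro x y hx hy w hw
        exact W.add_mem (hx w hw) (hy w hw)
      zero_mem' := by intro w hw; exact W.zero_mem
      algebraMap_mem' := by
        intro c w hw
        exact W.smul_mem c hw }
  have hM : ∀ p ∈ SC G T p0, p ∈ M := by
    intro p hp w hw
    rcases D.c2 hp with hsk | h | h
    · have h1 := hW _ (subset_lieGen _ ⟨_, ⟨p, hp, hsk, rfl⟩, rfl⟩) w hw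
      have hzw : z w = w := mem_Wz.mp (hWz hw)
      unfold nz at h1
      rw [LinearMap.sub_apply, LinearMap.smul_apply, hzw] at h1
      have h2 : ((2 : K) • p - 1) w = (2 : K) • p w - w := rfl
      rw [h2] at h1
      generalize LinearMap.trace K V (z * ((2 : K) • p - 1)) / (finrank K V : K) = l at h1
      have h3 := W.smul_mem (2 : K)⁻¹ (W.add_mem h1 (W.smul_mem (1 + l) hw))
      have e : (2 : K)⁻¹ • ((2 : K) • p w - w - l • w + (1 + l) • w) = p w := by
        have : (2 : K) • p w - w - l • w + (1 + l) • w = (2 : K) • p w := by module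
        rw [this, smul_smul, inv_mul_cancel₀ two_ne_zero, one_smul]
      rwa [e] at h3
    · rw [h]; exact W.zero_mem
    · rw [h]; exact hw
  intro g hg
  exact D.genA M hM g hg

/-- `G` normalises the Lie algebra. -/
lemma lie_conj [CharZero K] {a b : Module.End K V} (ha : a ∈ G) (hb : b ∈ G) (hab : a * b = 1)
    (hba : b * a = 1) {x : Module.End K V} (hx : x ∈ UL ω z G T p0) :
    a * x * b ∈ UL ω z G T p0 := by
  let M : Submodule K (Module.End K V) :=
    { carrier := {x | a * x * b ∈ UL ω z G T p0}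
      add_mem' := by
        intro x y hx hy
        rw [Set.mem_ofPred_eq] at *
        rw [mul_add, add_mul]; exact Submodule.add_mem _ hx hy
      zero_mem' := by simp
      smul_mem' := by
        intro c x hx
        rw [Set.mem_ofPred_eq] at *
        rw [mul_smul_comm, smul_mul_assoc]; exact Submodule.smul_mem _ _ hx }
  have : UL ω z G T p0 ≤ M := by
    apply lieGen_le
    · intro x hx y hy
      have hx' : a * x * b ∈ UL ω z G T p0 := hx
      have hy' : a * y * b ∈ UL ω z G T p0 := hy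
      have h1 := lieGen_comm hx' hy'
      change a * (x * y - y * x) * b ∈ UL ω z G T p0
      have e : a * x * b * (a * y * b) - a * y * b * (a * x * b) = a * (x * y - y * x) * b := by
        calc a * x * b * (a * y * b) - a * y * b * (a * x * b)
            = a * x * (b * a) * y * b - a * y * (b * a) * x * b := by simp only [mul_assoc]
          _ = _ := by rw [hba, mul_sub, sub_mul]; simp only [mul_one, mul_assoc]
      rw [e] at h1
      exact h1
    · rintro _ ⟨s, hs, rfl⟩
      change a * nz z s * b ∈ UL ω z G T p0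
      rw [← D.nz_conj ha hb hab hba]
      exact subset_lieGen _ ⟨_, D.si_conj hs ha hb hab hba, rfl⟩
  exact this hx

/-- The symmetries preserve the Lie algebra. -/
lemma lie_tw [CharZero K] {τ : Module.End K V ≃+* Module.End K V} (hτ : τ ∈ T)
    {x : Module.End K V} (hx : x ∈ UL ω z G T p0) : τ x ∈ UL ω z G T p0 := by
  obtain ⟨σ, hσ⟩ := D.semi τ hτ
  let M : Submodule K (Module.End K V) :=
    { carrier := {x | τ x ∈ UL ω z G T p0}
      add_mem' := by
        intro x y hx hy
        rw [Set.mem_ofPred_eq] at *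
        rw [map_add]; exact Submodule.add_mem _ hx hy
      zero_mem' := by simp
      smul_mem' := by
        intro c x hx
        rw [Set.mem_ofPred_eq] at *
        rw [hσ]; exact Submodule.smul_mem _ _ hx }
  have : UL ω z G T p0 ≤ M := by
    apply lieGen_le
    · intro x hx y hy
      have hx' : τ x ∈ UL ω z G T p0 := hx
      have hy' : τ y ∈ UL ω z G T p0 := hy
      have h1 := lieGen_comm hx' hy'
      change τ (x * y - y * x) ∈ UL ω z G T p0
      rw [map_sub, map_mul, map_mul]
      exact h1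
    · rintro _ ⟨s, hs, rfl⟩
      change τ (nz z s) ∈ UL ω z G T p0
      rw [← D.nz_tw hs hτ]
      exact subset_lieGen _ ⟨_, D.si_tw hs hτ, rfl⟩
  exact this hx

lemma isTw [CharZero K] {τ : Module.End K V ≃+* Module.End K V} (hτ : τ ∈ T) :
    Tw (UL ω z G T p0) τ where
  semi := D.semi τ hτ
  rk := D.rk τ hτ
  mem := by
    intro x
    constructor
    · intro h
      have h1 := D.lie_tw (D.tinv τ hτ) h
      rwa [RingEquiv.symm_apply_apply] at h1
    · exact fun h => D.lie_tw hτ h

/-- Ideals of the Lie algebra are stable under `G`. -/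
lemma id_conj [CharZero K] {M : Submodule K (Module.End K V)} (hM : IsId (UL ω z G T p0) M)
    {g h : Module.End K V} (hg : g ∈ G) (hh : h ∈ G) (hgh : g * h = 1) (hhg : h * g = 1)
    {x : Module.End K V} (hx : x ∈ M) : g * x * h ∈ M := by
  refine D.genB M ?_ g hg h hh hgh hhg x hx
  intro p hp t ht x hx
  rcases D.c2 hp with hsk | rfl | rfl
  · have hs : nz z ((2 : K) • p - 1) ∈ UL ω z G T p0 :=
      subset_lieGen _ ⟨_, ⟨p, hp, hsk, rfl⟩, rfl⟩
    have hpp := D.c1 hp
    have key : ∀ y ∈ M, p * y - y * p ∈ M := by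
      intro y hy
      have h1 := hM.2 _ hs y hy
      have hzy := (D.ul_inC (hM.1 hy)).1.comm
      have e : nz z ((2 : K) • p - 1) * y - y * nz z ((2 : K) • p - 1) =
          (2 : K) • (p * y - y * p) := by
        unfold nz
        simp only [sub_mul, mul_sub, smul_mul_assoc, mul_smul_comm, mul_one, one_mul, hzy]
        module
      rw [e] at h1
      have h2 := M.smul_mem (2 : K)⁻¹ h1
      rwa [smul_smul, inv_mul_cancel₀ two_ne_zero, one_smul] at h2
    have a1 := key x hx
    have a2 := key _ a1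
    have e2 : p * (p * x - x * p) - (p * x - x * p) * p =
        p * x + x * p - (2 : K) • (p * x * p) := by
      have : p * (p * x - x * p) - (p * x - x * p) * p =
          (p * p) * x + x * (p * p) - p * x * p - p * x * p := by
        simp only [mul_sub, sub_mul, mul_assoc]; abel
      rw [this, hpp]
      module
    rw [e2] at a2
    have e3 : (1 + (t - 1) • p) * x * (1 + (t⁻¹ - 1) • p) =
        x + ((t - t⁻¹) / 2) • (p * x - x * p) +
          ((t + t⁻¹ - 2) / 2) • (p * x + x * p - (2 : K) • (p * x * p)) := by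
      have h1 : (t - 1) * (t⁻¹ - 1) = 2 - t - t⁻¹ := by field_simp; ring
      have h2 : (1 + (t - 1) • p) * x * (1 + (t⁻¹ - 1) • p) =
          x + (t - 1) • (p * x) + (t⁻¹ - 1) • (x * p) +
            ((t - 1) * (t⁻¹ - 1)) • (p * x * p) := by
        simp only [add_mul, mul_add, one_mul, mul_one, smul_mul_assoc, mul_smul_comm]
        module
      rw [h2, h1]
      module
    rw [e3]
    exact M.add_mem (M.add_mem hx (M.smul_mem _ a1)) (M.smul_mem _ a2)
  · simpa using hx
  · have e : (1 + (t - 1) • (1 : Module.End K V)) * x * (1 + (t⁻¹ - 1) • 1) =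
        (t * t⁻¹) • x := by
      simp only [add_mul, mul_add, one_mul, mul_one, smul_mul_assoc, mul_smul_comm]
      module
    rw [e, mul_inv_cancel₀ ht, one_smul]
    exact hx

/-- An ideal stable under `T` and containing the generator of `p0` is everything. -/
lemma id_top [CharZero K] {M : Submodule K (Module.End K V)} (hM : IsId (UL ω z G T p0) M)
    (hT : ∀ τ ∈ T, ∀ x ∈ M, τ x ∈ M) (hsk0 : IsSk ω ((2 : K) • p0 - 1))
    (h0 : nz z ((2 : K) • p0 - 1) ∈ M) : UL ω z G T p0 ≤ M := by
  have hid : p0 ∈ SC G T p0 := ⟨_, D.tone, 1, D.one, 1, D.one, by simp, by simp, by simp⟩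
  have hs0 : (2 : K) • p0 - 1 ∈ SI ω G T p0 := ⟨p0, hid, hsk0, rfl⟩
  apply lieGen_le
  · intro x hx y hy
    exact hM.2 x (hM.1 hx) y hy
  · rintro _ ⟨s, ⟨p, ⟨τ, hτ, g, hg, h, hh, hgh, hhg, rfl⟩, hsk, rfl⟩, rfl⟩
    have h1 := hT τ hτ _ h0
    have h2 := D.id_conj hM hg hh hgh hhg h1
    obtain ⟨σ, hσ⟩ := D.semi τ hτ
    have e : g * τ ((2 : K) • p0 - 1) * h = (2 : K) • (g * τ p0 * h) - 1 := by
      rw [map_sub, map_one, hσ, mul_sub, sub_mul, mul_one, hgh, mul_smul_comm, smul_mul_assoc]
      congr 2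
      exact map_ofNat σ 2
    rw [← D.nz_tw hs0 hτ, ← D.nz_conj hg hh hgh hhg, e] at h2
    exact h2

end UStr

end UN
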