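import Pool.Agent.Helper2.UN.Defs
import Pool.Agent.Helper2.UN.U1

/-!
The abstract data attached to a unitary Mumford-Tate pair in matrix form: definitions.
-/

open Module MTPairs

namespace UN

open MTP

variable {K : Type*} [Field K] {m : Type*} [Fintype m] [DecidableEq m]

/-- The bilinear form with Gram matrix `J`. -/
noncomputable def fJ (J : Matrix m m K) : LinearMap.BilinForm K (m → K) := Matrix.toBilin' J

/-- The operators given by the elements of `G`. -/
def GE (G : Subgroup (Matrix.GeneralLinearGroup m K)) : Set (Module.End K (m → K)) :=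
  {f | ∃ g ∈ G, f = Matrix.toLin' (g : Matrix m m K)}

/-- The symmetries induced by `Γ`. -/
def TE (Γ : Subgroup (Equiv.Perm (m → K))) :
    Set (Module.End K (m → K) ≃+* Module.End K (m → K)) :=
  {τ | ∃ θ ∈ Γ, ∀ (x : Module.End K (m → K)) (v : m → K), τ x (θ v) = θ (x v)}

/-- The involution with eigenspaces `W` (eigenvalue one) and `W'` (eigenvalue minus one). -/
noncomputable def zW {W W' : Submodule K (m → K)} (h : IsCompl W W') : Module.End K (m → K) :=
  (2 : K) • W.projection W' h - 1

end UN
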