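import Pool.Agent.Helper93.SR.RatDefs

/-!
Unitary Mumford-Tate pairs: definitions.
-/

open Module

namespace MTPairs

variable {K : Type*} [Field K] {m : Type*} [Fintype m] [DecidableEq m]

/-- The standard representation `K^m` is the direct sum of the subspaces `W` and `W'`, which are
isotropic for the form with Gram matrix `J` and stable under `G`; the group `G` acts irreducibly
on `W` (hence on `W'`, which is dual to `W` up to the multiplier), and every element of `Γ`
either preserves both `W` and `W'` or exchanges them. -/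
structure IsUnitarySplit (Γ : Subgroup (Equiv.Perm (m → K))) (J : Matrix m m K)
    (G : Subgroup (Matrix.GeneralLinearGroup m K)) (W W' : Submodule K (m → K)) : Prop where
  compl : IsCompl W W'
  iso : ∀ v ∈ W, ∀ w ∈ W, v ⬝ᵥ J.mulVec w = 0
  iso' : ∀ v ∈ W', ∀ w ∈ W', v ⬝ᵥ J.mulVec w = 0
  stable : ∀ g ∈ G, ∀ v ∈ W, (g : Matrix m m K).mulVec v ∈ W
  stable' : ∀ g ∈ G, ∀ v ∈ W', (g : Matrix m m K).mulVec v ∈ W'
  irr : ∀ U ≤ W, (∀ g ∈ G, ∀ v ∈ U, (g : Matrix m m K).mulVec v ∈ U) → U = ⊥ ∨ U = W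
  perm : ∀ θ ∈ Γ, ((∀ v ∈ W, θ v ∈ W) ∧ ∀ v ∈ W', θ v ∈ W') ∨
    ((∀ v ∈ W, θ v ∈ W') ∧ ∀ v ∈ W', θ v ∈ W)

/-- The endomorphism `f` has determinant one. -/
abbrev DetOne {V : Type*} [AddCommGroup V] [Module K V] (f : V →ₗ[K] V) : Prop :=
  LinearMap.det f = 1

/-- `G` contains every isometry of the form with Gram matrix `J` which preserves `W` and `W'` and
has determinant one on `W`. -/
def ContainsSU (J : Matrix m m K) (G : Subgroup (Matrix.GeneralLinearGroup m K))
    (W W' : Submodule K (m → K)) : Prop :=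
  ∀ g : Matrix.GeneralLinearGroup m K,
    (g : Matrix m m K).transpose * J * (g : Matrix m m K) = J →
    (∀ v ∈ W', (g : Matrix m m K).mulVec v ∈ W') →
    ∀ h : ∀ v ∈ W, (g : Matrix m m K).mulVecLin v ∈ W,
      DetOne ((g : Matrix m m K).mulVecLin.restrict h) → g ∈ G

end MTPairs
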