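import Pool.Agent.Helper2.UN.Defs

/-!
Unitary Mumford-Tate pairs with two non isomorphic summands: definition.
-/

open Module

namespace MTPairs

variable {K : Type*} [Field K] {m : Type*} [Fintype m] [DecidableEq m]

/-- The rank of the matrix `π` on the subspace `W`. -/
noncomputable def rankOn (π : Matrix m m K) (W : Submodule K (m → K)) : ℕ :=
  finrank K (W.map π.mulVecLin)

/-- A unitary splitting `K^m = W ⊕ W'` in which `W` and `W'` are not isomorphic as
representations of `G`. -/
structure IsUnitaryPair (Γ : Subgroup (Equiv.Perm (m → K))) (J : Matrix m m K)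
    (G : Subgroup (Matrix.GeneralLinearGroup m K)) (W W' : Submodule K (m → K)) : Prop
    extends IsUnitarySplit Γ J G W W' where
  ni : ∀ f : (m → K) →ₗ[K] (m → K), (∀ v ∈ W, f v ∈ W') →
    (∀ g ∈ G, ∀ v ∈ W, f ((g : Matrix m m K).mulVec v) = (g : Matrix m m K).mulVec (f v)) →
    ∀ v ∈ W, f v = 0

end MTPairs
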