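import Pool.Agent.Helper93.SR.Ideals

/-!
Lie algebras of operators in which ideals have complements.
-/

open Module

namespace UN

open MTP

variable {K : Type*} [Field K] {V : Type*} [AddCommGroup V] [Module K V] [FiniteDimensional K V]

/-- A Lie algebra of operators with trivial centre, in which the trace form is nondegenerate on
ideals and elements of complementary ideals have nonzero products. -/
structure Red (L : Submodule K (Module.End K V)) : Prop where
  br : ∀ x ∈ L, ∀ y ∈ L, x * y - y * x ∈ L
  nd : ∀ I, IsId L I → ∀ x ∈ I, x ∈ orth L I → x = 0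
  cen : ∀ x ∈ L, (∀ y ∈ L, x * y = y * x) → x = 0
  star : ∀ I, IsId L I → ∀ x ∈ I, ∀ y ∈ orth L I, x * y = 0 → x = 0 ∨ y = 0

end UN
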