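import Pool.Agent.Helper2.UN.U7
import Pool.Agent.Helper45.UN.LE3

/-!
The group theorem for unitary pairs of balanced signature, abstract form.
-/

set_option linter.unusedSimpArgs false
set_option linter.unusedSectionVars false
set_option linter.unusedVariables false

open Module

attribute [local instance 100] LieRing.ofAssociativeRing

namespace UN

open MTP

variable {K : Type*} [Field K] {V : Type*} [AddCommGroup V] [Module K V] [FiniteDimensional K V]

namespace UStr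
variable {ω : LinearMap.BilinForm K V} {z : Module.End K V} {G : Set (Module.End K V)}
  {T : Set (Module.End K V ≃+* Module.End K V)} {p0 : Module.End K V} (D : UStr ω z G T p0)
include D

/-- The hypotheses of the theorem on Lie algebras. -/
lemma prep [IsAlgClosed K] [CharZero K] {u : Module.End K V}
    (hu : u ∈ G) (hN : (u - 1) * (u - 1) = 0) (h0 : u - 1 ≠ 0) :
    RR D.zz p0 ≠ 0 ∧ RR D.zz p0 ≠ 1 ∧ (∃ d : K, RR D.zz p0 - d • 1 ∈ D.LW) ∧
      RR D.zz (u - 1) ∈ D.LW ∧ RR D.zz (u - 1) * RR D.zz (u - 1) = 0 ∧ RR D.zz (u - 1) ≠ 0 ∧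
      MTP.rk (u - 1) = 2 * MTP.rk (RR D.zz (u - 1)) := by
  have hnt := D.wz_ne
  have huL := D.quad_mem hu hN
  have huC := (D.ul_inC huL).1
  have hsk := D.skew_of huL h0
  have hsI : (2 : K) • p0 - 1 ∈ SI ω G T p0 := ⟨p0, D.p0_mem, hsk, rfl⟩
  set n0 := nz z ((2 : K) • p0 - 1) with hn0
  have hn0L : n0 ∈ UL ω z G T p0 := subset_lieGen _ ⟨_, hsI, rfl⟩
  have hn0C := (D.ul_inC hn0L).1
  have hn00 : n0 ≠ 0 := by
    intro h
    have h1 : UL ω z G T p0 ≤ ⊥ := D.id_top (M := ⊥)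
      ⟨bot_le, fun x hx y hy => by
        rw [Submodule.mem_bot] at *
        rw [hy]; simp⟩
      (fun τ hτ x hx => by
        rw [Submodule.mem_bot] at *
        rw [hx, map_zero]) hsk (by rw [← hn0, h]; exact Submodule.zero_mem _)
    exact h0 ((Submodule.mem_bot K).mp (h1 huL))
  obtain ⟨l, hl⟩ : ∃ l : K, RR D.zz n0 = (2 : K) • RR D.zz p0 - (1 + l) • 1 := by
    refine ⟨LinearMap.trace K V (z * ((2 : K) • p0 - 1)) / (finrank K V : K), ?_⟩
    rw [hn0]
    unfold nz
    generalize LinearMap.trace K V (z * ((2 : K) • p0 - 1)) / (finrank K V : K) = l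
    rw [map_sub, map_sub, map_smul, map_smul, RR_one, RR_z]
    module
  have hscal : ∀ c : K, RR D.zz n0 ≠ c • 1 := by
    intro c hc
    have h1 := D.ls_tr _ ⟨n0, hn0L, rfl⟩
    rw [hc, map_smul, LinearMap.trace_one, smul_eq_mul] at h1
    have hn : (finrank K (Wz z) : K) ≠ 0 := by
      rw [Nat.cast_ne_zero]; exact Module.finrank_pos.ne'
    have hc0 := (mul_eq_zero.mp h1).resolve_right hn
    apply hn00
    apply hn0C.eq_zero D.nd D.zz D.zsk
    rw [hc, hc0, zero_smul]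
  refine ⟨?_, ?_, ⟨(1 + l) / 2, ?_⟩, ⟨u - 1, huL, rfl⟩, ?_, ?_, huC.rk_eq D.nd D.zz D.zsk⟩
  · intro h
    apply hscal (-(1 + l))
    rw [hl, h]; module
  · intro h
    apply hscal (1 - l)
    rw [hl, h]; module
  · have h1 := D.LS.smul_mem (2 : K)⁻¹ (show RR D.zz n0 ∈ D.LS from ⟨n0, hn0L, rfl⟩)
    have e : (2 : K)⁻¹ • RR D.zz n0 = RR D.zz p0 - ((1 + l) / 2) • 1 := by
      rw [hl, smul_sub, smul_smul, smul_smul, inv_mul_cancel₀ two_ne_zero, one_smul,
        inv_mul_eq_div]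
    rw [e] at h1
    exact h1
  · rw [← RR_mul D.zz huC.comm, hN, map_zero]
  · intro h
    exact h0 (huC.eq_zero D.nd D.zz D.zsk h)

/-- **The group theorem, abstract form, balanced signature.** -/
theorem main_half [IsAlgClosed K] [CharZero K] (hs : Smp (UL ω z G T p0))
    {u : Module.End K V} (hu : u ∈ G) (hN : (u - 1) * (u - 1) = 0) (h0 : u - 1 ≠ 0)
    (hpq : 2 * MTP.rk (RR D.zz p0) = finrank K (Wz z))
    (hni : ∀ f : Module.End K V, (∀ v, z (f v) = -f v) → (∀ g ∈ G, f * g = g * f) →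
      ∀ v ∈ Wz z, f v = 0) :
    (∀ φ : Module.End K (Wz z), LinearMap.trace K _ φ = 0 →
      φ ∈ (UL ω z G T p0).map (RR D.zz)) ∨
    ∃ n, Odd n ∧ 5 ≤ n ∧ finrank K (Wz z) = 2 ^ (n - 1) ∧ MTP.rk (RR D.zz p0) = 2 ^ (n - 2) ∧
      (MTP.rk (u - 1) = 2 ^ (n - 2) ∨ MTP.rk (u - 1) = 2 ^ (n - 1)) := by
  have hnt := D.wz_ne
  have huL := D.quad_mem hu hN
  have hsk := D.skew_of huL h0
  obtain ⟨a1, a2, ⟨d, a3⟩, a4, a5, a6, a7⟩ := D.prep hu hN h0
  -- the trace
  have ht : LinearMap.trace K V (z * ((2 : K) • p0 - 1)) = 0 := by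
    have e1 := trace_idem D.RR_p0
    have e3 := RR_trace D.zz D.p0_comm
    have e5 := RR_trace D.zz (x := (1 : Module.End K V)) (by rw [one_mul, mul_one])
    rw [RR_one, LinearMap.trace_one, LinearMap.trace_one, mul_one,
      trace_eq_zero_of_sk D.nd D.zsk, add_zero] at e5
    have e6 := trace_eq_zero_of_sk D.nd hsk
    rw [map_sub, map_smul, LinearMap.trace_one, smul_eq_mul] at e6
    have e7 : (2 : K) * (MTP.rk (RR D.zz p0) : K) = (finrank K (Wz z) : K) := by
      exact_mod_cast congrArg (Nat.cast (R := K)) hpq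
    rw [← e1, e3, e5] at e7
    rw [mul_sub, mul_smul_comm, mul_one, map_sub, map_smul, smul_eq_mul,
      trace_eq_zero_of_sk D.nd D.zsk, sub_zero]
    have two0 : (2 : K) ≠ 0 := two_ne_zero
    have h2 : (2 : K) * (2 : K)⁻¹ = 1 := mul_inv_cancel₀ two0
    linear_combination (2 : K) * e7 - e6 + (finrank K V : K) * h2 -
      2 * (LinearMap.trace K V p0 + LinearMap.trace K V (z * p0)) * h2
  rcases lie_half (L := D.LW) (fun W hW => D.ls_irr W hW) (fun y hy => D.ls_tr y hy)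
      (D.lw_simple hs huL h0) (fun b hb => D.form_zero hsk ht hni b hb) (P := RR D.zz p0)
      D.RR_p0 a1 a2 a3 hpq a4 a5 a6 with h | ⟨n, h1, h2, h3, h4, h5⟩
  · left
    intro φ hφ
    exact h φ hφ
  · right
    refine ⟨n, h1, h2, h3, h4, ?_⟩
    rw [a7]
    rcases h5 with h5 | h5
    · left
      rw [h5, ← pow_succ']
      congr 1
      omega
    · right
      rw [h5, ← pow_succ']
      congr 1
      omega

end UStr

end UN
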