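import Pool.Agent.Helper2.UN.U5
import Pool.Agent.Helper2.UN.U8
import Pool.Agent.Helper2.UN.PDefs

/-!
The group theorem for unitary pairs of all signatures, matrix form.
-/

set_option linter.unusedSimpArgs false
set_option linter.unusedSectionVars false
set_option linter.unusedVariables false

open Module MTPairs

namespace UN

open MTP

lemma neg_invol {K : Type*} [Field K] {V : Type*} [AddCommGroup V] [Module K V]
    {z : Module.End K V} (h : z * z = 1) : -z * -z = 1 := by rw [neg_mul_neg, h]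

section mat

variable {K : Type*} [Field K] [CharZero K] {m : Type*} [Fintype m]
  [DecidableEq m] {Γ : Subgroup (Equiv.Perm (m → K))} {J : Matrix m m K}
  {G : Subgroup (Matrix.GeneralLinearGroup m K)} {π : Matrix m m K} {W W' : Submodule K (m → K)}

/-- The two summands have the same dimension. -/
lemma finrank_split (D : IsStrongMTPair Γ J G π) (hW : IsUnitarySplit Γ J G W W') :
    finrank K W = finrank K W' := by
  have hzz : zW hW.compl * zW hW.compl = 1 := GA.zW_zW hW.compl
  have hzz' := neg_invol hzz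
  have hsk := trace_eq_zero_of_sk (GA.fJ_nd D.det) (gb_zsk hW)
  have e1 := RR_trace hzz (x := (1 : Module.End K (m → K))) (by rw [one_mul, mul_one])
  have e2 := RR_trace hzz' (x := (1 : Module.End K (m → K))) (by rw [one_mul, mul_one])
  rw [RR_one, LinearMap.trace_one, LinearMap.trace_one, mul_one, hsk] at e1
  rw [RR_one, LinearMap.trace_one, LinearMap.trace_one, mul_one, map_neg, hsk, neg_zero] at e2
  rw [← e1] at e2
  have e3 : finrank K (Wz (-zW hW.compl)) = finrank K (Wz (zW hW.compl)) := by exact_mod_cast e2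
  rw [Wz_zW, Wz_neg_zW] at e3
  exact e3.symm

/-- The cocharacter preserves the summands. -/
lemma pi_mem (D : IsStrongMTPair Γ J G π) (hW : IsUnitarySplit Γ J G W W') {v : m → K}
    (hv : v ∈ W) : π.mulVec v ∈ W := by
  obtain ⟨g, hg, hgπ⟩ := D.coch.2 2 two_ne_zero
  have h1 := hW.stable g hg v hv
  rw [hgπ, Matrix.add_mulVec, Matrix.sub_mulVec, Matrix.one_mulVec, Matrix.smul_mulVec,
    two_smul] at h1
  have h2 := W.sub_mem h1 hv
  have e : π.mulVec v + π.mulVec v + (v - π.mulVec v) - v = π.mulVec v := by abel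
  rwa [e] at h2

/-- The summands are not isomorphic when the signature is not balanced. -/
lemma ni_of_ne (D : IsStrongMTPair Γ J G π) (hW : IsUnitarySplit Γ J G W W')
    (hpq : finrank K (W.map π.mulVecLin) ≠ finrank K (W'.map π.mulVecLin)) :
    IsUnitaryPair Γ J G W W' := by
  refine ⟨hW, ?_⟩
  intro f hf hfg
  rcases hW.irr (W ⊓ LinearMap.ker f) inf_le_left (by
    rintro g hg v ⟨hv, hv0⟩
    have hv0' : f v = 0 := hv0
    refine ⟨hW.stable g hg v hv, ?_⟩
    change f _ = 0
    rw [hfg g hg v hv, hv0', Matrix.mulVec_zero]) with h | h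
  swap
  · intro v hv
    rw [← h] at hv
    exact hv.2
  exfalso
  apply hpq
  have hinj : ∀ U ≤ W, finrank K (U.map f) = finrank K U := by
    intro U hU
    apply LinearEquiv.finrank_eq
    exact (LinearEquiv.ofInjective (f.domRestrict U) (by
      rw [← LinearMap.ker_eq_bot, LinearMap.ker_eq_bot']
      rintro ⟨v, hv⟩ hv0
      have h1 : v ∈ W ⊓ LinearMap.ker f := ⟨hU hv, hv0⟩
      rw [h, Submodule.mem_bot] at h1
      exact Subtype.ext h1) ≪≫ₗ LinearEquiv.ofEq _ _ (by
        rw [LinearMap.range_domRestrict])).symm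
  have hmap : W.map f = W' := by
    apply Submodule.eq_of_le_of_finrank_eq
    · rintro _ ⟨v, hv, rfl⟩
      exact hf v hv
    · rw [hinj W le_rfl, finrank_split D hW]
  have hπ : ∀ v ∈ W, f (π.mulVec v) = π.mulVec (f v) := by
    intro v hv
    obtain ⟨g, hg, hgπ⟩ := D.coch.2 2 two_ne_zero
    have h1 := hfg g hg v hv
    rw [hgπ, Matrix.add_mulVec, Matrix.sub_mulVec, Matrix.one_mulVec, Matrix.smul_mulVec,
      Matrix.add_mulVec, Matrix.sub_mulVec, Matrix.one_mulVec, Matrix.smul_mulVec, two_smul,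
      two_smul, map_add, map_add, map_sub] at h1
    have e1 : f (π.mulVec v) + f (π.mulVec v) + (f v - f (π.mulVec v)) = f (π.mulVec v) + f v := by
      abel
    have e2 : π.mulVec (f v) + π.mulVec (f v) + (f v - π.mulVec (f v)) =
        π.mulVec (f v) + f v := by abel
    rw [e1, e2] at h1
    exact add_right_cancel h1
  have h2 : (W.map π.mulVecLin).map f = W'.map π.mulVecLin := by
    apply le_antisymm
    · rintro _ ⟨_, ⟨v, hv, rfl⟩, rfl⟩
      exact ⟨f v, hf v hv, (hπ v hv).symm⟩
    · rintro _ ⟨w, hw, rfl⟩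
      have hw' := hw
      rw [← hmap] at hw'
      obtain ⟨v, hv, rfl⟩ := hw'
      exact ⟨π.mulVec v, ⟨v, hv, rfl⟩, hπ v hv⟩
  rw [← h2, hinj]
  rintro _ ⟨v, hv, rfl⟩
  exact pi_mem D hW hv

end mat

section alg

variable {K : Type*} [Field K] [IsAlgClosed K] [CharZero K] {m : Type*} [Fintype m]
  [DecidableEq m] {Γ : Subgroup (Equiv.Perm (m → K))} {J : Matrix m m K}
  {G : Subgroup (Matrix.GeneralLinearGroup m K)} {π : Matrix m m K} {W W' : Submodule K (m → K)}

/-- **The group theorem**, balanced signature. -/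
theorem unitary_half (D : IsStrongMTPair Γ J G π) (hW : IsUnitaryPair Γ J G W W') {t : ℕ}
    (ht : 0 < t) (hd : DenseQuad Γ G ⊤ t)
    (hpq : finrank K (W.map π.mulVecLin) = finrank K (W'.map π.mulVecLin)) :
    ContainsSU J G W W' ∨ ∃ n, Odd n ∧ 5 ≤ n ∧
      finrank K (W.map π.mulVecLin) = 2 ^ (n - 2) ∧
      finrank K (W'.map π.mulVecLin) = 2 ^ (n - 2) ∧
      (t = 2 ^ (n - 2) ∨ t = 2 ^ (n - 1)) := by
  have hW1 := hW.toIsUnitarySplit
  by_cases hne : W = ⊥
  · exfalso
    have h0 : W' = ⊥ := by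
      have := finrank_split D hW1
      rw [hne, finrank_bot] at this
      exact Submodule.finrank_eq_zero.mp this.symm
    have htop := hW1.compl.sup_eq_top
    rw [hne, h0, bot_sup_eq] at htop
    obtain ⟨-, -, -, u, hu, -, hq⟩ := hd 1 Γ.one_mem ∅
    have h2 := hq.2
    rw [← htop, Submodule.map_bot, finrank_bot] at h2
    omega
  have U := ustr D hW1 hne
  have hde := dense_E D ht hd
  have hs := U.smp (by
    intro τ hτ E
    obtain ⟨τ', h1, h2, u, h3, h4, h5, -, h6⟩ := hde τ hτ E
    exact ⟨τ', h1, h2, u, h3, h4, h5, h6⟩)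
  obtain ⟨-, -, -, u, hu, hu2, hu0, hut, -⟩ := hde _ U.tone ∅
  have huL := U.quad_mem hu hu2
  have hsk := U.skew_of huL hu0
  have hadd := map_Wz_add U.nd U.zz U.zsk U.idem U.p0_comm hsk
  have hw1 : finrank K (W.map π.mulVecLin) = MTP.rk (RR U.zz (Matrix.toLin' π)) := by
    rw [← map_Wz U.zz U.p0_comm, Wz_zW]
    rfl
  have hw2 : finrank K (W'.map π.mulVecLin) =
      finrank K ((Wz (-zW hW1.compl)).map (Matrix.toLin' π)) := by
    rw [Wz_neg_zW]
    rfl
  rw [← hw2, map_Wz U.zz U.p0_comm, ← hw1] at hadd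
  have hni : ∀ f : Module.End K (m → K), (∀ v, zW hW1.compl (f v) = -f v) →
      (∀ g ∈ GE G, f * g = g * f) → ∀ v ∈ Wz (zW hW1.compl), f v = 0 := by
    intro f hf hfg v hv
    rw [Wz_zW] at hv
    apply hW.ni f _ _ v hv
    · intro w _
      rw [← Wz_neg_zW hW1.compl, mem_Wz, LinearMap.neg_apply, hf, neg_neg]
    · intro g hg w _
      have h1 := LinearMap.congr_fun (hfg _ ⟨g, hg, rfl⟩) w
      simp only [Module.End.mul_apply, Matrix.toLin'_apply] at h1
      exact h1
  rcases U.main_half hs hu hu2 hu0 (by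
    rw [← hw1, ← hadd]
    omega) hni with h | ⟨n, h1, h2, h3, h4, h5⟩
  · left
    exact containsSU D hW1 hne U.zz (fun x hx => U.ul_der hs hx) h
  · right
    rw [← hw1] at h4
    refine ⟨n, h1, h2, h4, by rw [← hpq, h4], ?_⟩
    rw [← hut]
    exact h5

end alg

end UN
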