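import Pool.Agent.Helper2.UN.U6
import Pool.Agent.Helper2.UN.U9
import Pool.Agent.Helper82.UN.EE

/-!
Unitary pairs of all signatures: the exact criterion.
-/

open Module MTPairs

namespace UN

open MTP

/-- **The exact criterion, all signatures.** -/
theorem unitary_complete {K : Type*} [Field K] [IsAlgClosed K] [CharZero K]
    (R : Set (ℕ × ℕ × ℕ)) (hR : ∀ p q t, (p, q, t) ∈ R → 0 < t) :
    (∀ (m : Type) [Fintype m] [DecidableEq m] (Γ : Subgroup (Equiv.Perm (m → K)))
      (J : Matrix m m K) (G : Subgroup (Matrix.GeneralLinearGroup m K)) (π : Matrix m m K)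
      (W W' : Submodule K (m → K)), IsStrongMTPair Γ J G π → IsUnitaryPair Γ J G W W' →
      (∃ t, DenseQuad Γ G ⊤ t ∧
        (finrank K (W.map π.mulVecLin), finrank K (W'.map π.mulVecLin), t) ∈ R) →
      ContainsSU J G W W') ↔
    (∀ n k, 2 ≤ k → k + 2 ≤ n → n ≠ 2 * k →
      ((n - 1).choose (k - 1), (n - 1).choose k, 2 * (n - 2).choose (k - 1)) ∉ R) ∧
    (∀ n, Odd n → 3 ≤ n → (2 ^ n, 2 ^ n, 2 ^ n) ∉ R ∧ (2 ^ n, 2 ^ n, 2 ^ (n + 1)) ∉ R) := by
  constructor
  · intro h
    constructor
    · intro n k hk hn hnk hmem
      obtain ⟨m, _, _, J, G, π, W, W', h1, h2, h3, h4, h5, h6⟩ := exists_wedge K hk hn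
      apply h6
      apply h m ⊥ J G π W W' h1 (ni_of_ne h1 h2 _)
      · refine ⟨_, dense_bot h5, ?_⟩
        rw [h3, h4]
        exact hmem
      · rw [h3, h4]
        intro heq
        apply hnk
        -- the two binomial coefficients are equal
        have e1 := Nat.choose_succ_right_eq (n - 1) (k - 1)
        have e2 : k - 1 + 1 = k := by omega
        rw [e2, ← heq] at e1
        have hpos : 0 < (n - 1).choose (k - 1) := Nat.choose_pos (by omega)
        have e3 := Nat.eq_of_mul_eq_mul_left hpos e1
        omega
    · intro n hn hn3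
      obtain ⟨m, _, _, J, G, π, W, W', h1, h2, h3, h4, h5, h6, h7, h8⟩ :=
        exists_half K (n := n + 2) (by
          obtain ⟨a, ha⟩ := hn
          exact ⟨a + 1, by omega⟩) (by omega)
      have e1 : n + 2 - 2 = n := by omega
      have e2 : n + 2 - 1 = n + 1 := by omega
      rw [e1] at h4 h5 h6
      rw [e2] at h7
      constructor
      · intro hmem
        apply h8
        apply h m ⊥ J G π W W' h1 ⟨h2, h3⟩
        refine ⟨_, dense_bot h6, ?_⟩
        rw [h4, h5]
        exact hmem
      · intro hmem
        apply h8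
        apply h m ⊥ J G π W W' h1 ⟨h2, h3⟩
        refine ⟨_, dense_bot h7, ?_⟩
        rw [h4, h5]
        exact hmem
  · rintro ⟨h, h'⟩ m _ _ Γ J G π W W' D hW ⟨t, hd, hmem⟩
    have ht := hR _ _ _ hmem
    by_cases hpq : finrank K (W.map π.mulVecLin) = finrank K (W'.map π.mulVecLin)
    · rcases unitary_half D hW ht hd hpq with h1 | ⟨n, h1, h2, h3, h4, h5⟩
      · exact h1
      · exfalso
        have h6 := h' (n - 2) (by
          obtain ⟨a, ha⟩ := h1
          exact ⟨a - 1, by omega⟩) (by omega)
        have e1 : n - 2 + 1 = n - 1 := by omega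
        rw [e1] at h6
        rw [h3, h4] at hmem
        rcases h5 with h5 | h5
        · rw [h5] at hmem
          exact h6.1 hmem
        · rw [h5] at hmem
          exact h6.2 hmem
    · rcases unitary_main D hW.toIsUnitarySplit ht hd hpq with h1 | ⟨n, k, h1, h2, h3, h4, h5, h6⟩
      · exact h1
      · exfalso
        apply h n (n - k) (by omega) (by omega) (by omega)
        rw [h4, h5, h6] at hmem
        have e1 : (n - 1).choose (n - k - 1) = (n - 1).choose k := by
          have : n - k - 1 = n - 1 - k := by omega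
          rw [this, Nat.choose_symm (by omega)]
        have e2 : (n - 1).choose (n - k) = (n - 1).choose (k - 1) := by
          have : n - k = n - 1 - (k - 1) := by omega
          rw [this, Nat.choose_symm (by omega)]
        have e3 : (n - 2).choose (n - k - 1) = (n - 2).choose (k - 1) := by
          have : n - k - 1 = n - 2 - (k - 1) := by omega
          rw [this, Nat.choose_symm (by omega)]
        rw [e1, e2, e3]
        exact hmem

end UN
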