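import Pool.Agent.Helper2.UN.U1
import Pool.Agent.Helper2.UN.RedDefs
import Pool.Agent.Helper93.SR.Strong

/-!
The Lie algebra of a unitary pair: restriction to the eigenspace, nondegeneracy, quadratic
unipotent elements.
-/

set_option linter.unusedSimpArgs false
set_option linter.unusedSectionVars false
set_option linter.unusedVariables false

open Module

attribute [local instance 100] LieRing.ofAssociativeRing

namespace UN

open MTP

variable {K : Type*} [Field K] {V : Type*} [AddCommGroup V] [Module K V] [FiniteDimensional K V]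

/-- Schur's lemma. -/
lemma schur [IsAlgClosed K] [Nontrivial V] {S : Set (Module.End K V)}
    (hirr : ∀ U : Submodule K V, (∀ x ∈ S, ∀ w ∈ U, x w ∈ U) → U = ⊥ ∨ U = ⊤)
    {x : Module.End K V} (hx : ∀ y ∈ S, x * y = y * x) : ∃ c : K, x = c • 1 := by
  obtain ⟨c, hc⟩ := Module.End.exists_eigenvalue x
  refine ⟨c, ?_⟩
  have htop : Module.End.eigenspace x c = ⊤ := by
    rcases hirr (Module.End.eigenspace x c) (by
      intro y hy w hw
      rw [Module.End.mem_eigenspace_iff] at hw ⊢
      have := LinearMap.congr_fun (hx y hy) w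
      simp only [Module.End.mul_apply] at this
      rw [this, hw, map_smul]) with h | h
    · exact absurd h hc
    · exact h
  ext v
  have : v ∈ Module.End.eigenspace x c := by rw [htop]; trivial
  rw [Module.End.mem_eigenspace_iff] at this
  rw [this]; rfl

/-- `z x y` has trace zero. -/
lemma trace_zxy [CharZero K] {ω : LinearMap.BilinForm K V} (hω : ω.Nondegenerate)
    {z x y : Module.End K V} (hz : IsSk ω z) (hx : InC ω z x) (hy : InC ω z y) :
    LinearMap.trace K V (z * (x * y)) = 0 := by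
  have e1 : LinearMap.trace K V (z * (y * x)) = LinearMap.trace K V (z * (x * y)) := by
    have : z * (y * x) = y * (z * x) := by
      rw [← mul_assoc, ← hy.comm, mul_assoc]
    rw [this, LinearMap.trace_mul_comm, mul_assoc]
  have e2 : IsSk ω (z * (x * y) + z * (y * x)) := by
    intro v w
    have c1 : ∀ v, x (z v) = z (x v) := fun v => LinearMap.congr_fun hx.comm v
    have c2 : ∀ v, y (z v) = z (y v) := fun v => LinearMap.congr_fun hy.comm v
    simp only [LinearMap.add_apply, Module.End.mul_apply, map_add]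
    rw [hz, hx.sk, hy.sk, hz, hy.sk, hx.sk, c1, c2, c2, c1]
    ring
  have h := trace_eq_zero_of_sk hω e2
  rw [map_add, e1] at h
  have h2 : (2 : K) * LinearMap.trace K V (z * (x * y)) = 0 := by linear_combination h
  exact (mul_eq_zero.mp h2).resolve_left two_ne_zero

/-- Traces of products on the eigenspace. -/
lemma trace_RR_mul [CharZero K] {ω : LinearMap.BilinForm K V} (hω : ω.Nondegenerate)
    {z x y : Module.End K V} (hzz : z * z = 1) (hz : IsSk ω z) (hx : InC ω z x)
    (hy : InC ω z y) : LinearMap.trace K (Wz z) (RR hzz x * RR hzz y) =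
      (2 : K)⁻¹ * LinearMap.trace K V (x * y) := by
  have hxy : x * y * z = z * (x * y) := by
    rw [mul_assoc, hy.comm, ← mul_assoc, hx.comm, mul_assoc]
  rw [← RR_mul hzz hy.comm, RR_trace hzz hxy, trace_zxy hω hz hx hy, add_zero]

/-- Complements of ideals, from nondegeneracy. -/
lemma orth_comm_of [CharZero K] {L I : Submodule K (Module.End K V)}
    (hbr : ∀ x ∈ L, ∀ y ∈ L, x * y - y * x ∈ L)
    (hnd : ∀ I, IsId L I → ∀ x ∈ I, x ∈ orth L I → x = 0) (hI : IsId L I)
    {x y : Module.End K V} (hx : x ∈ I) (hy : y ∈ orth L I) : x * y = y * x := by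
  rw [← sub_eq_zero]
  apply hnd I hI
  · have h1 := hI.2 y hy.1 x hx
    have h2 := I.neg_mem h1
    rwa [neg_sub] at h2
  · exact (orth_isId hbr hI).2 x (hI.1 hx) y hy

lemma sup_orth_of [CharZero K] {L I : Submodule K (Module.End K V)}
    (hnd : ∀ I, IsId L I → ∀ x ∈ I, x ∈ orth L I → x = 0) (hI : IsId L I)
    {z : Module.End K V} (hz : z ∈ L) : ∃ x ∈ I, z - x ∈ orth L I := by
  let Φ : I →ₗ[K] Module.Dual K I :=
    { toFun := fun a =>
        { toFun := fun b => LinearMap.trace K V ((a : Module.End K V) * (b : Module.End K V))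
          map_add' := by intro b c; simp [mul_add]
          map_smul' := by intro c b; simp }
      map_add' := by intro a b; ext c; simp [add_mul]
      map_smul' := by intro c a; ext b; simp }
  have hinj : Function.Injective Φ := by
    rw [← LinearMap.ker_eq_bot, LinearMap.ker_eq_bot']
    intro a ha
    apply Subtype.ext
    apply hnd I hI _ a.2
    refine ⟨hI.1 a.2, fun y hy => ?_⟩
    have := congrArg (fun f : Module.Dual K I => f ⟨y, hy⟩) ha
    exact this
  have hsurj : Function.Surjective Φ :=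
    (LinearMap.injective_iff_surjective_of_finrank_eq_finrank
      (Subspace.dual_finrank_eq (K := K) (V := I)).symm).mp hinj
  let F : Module.Dual K I :=
    { toFun := fun b => LinearMap.trace K V (z * (b : Module.End K V))
      map_add' := by intro b c; simp [mul_add]
      map_smul' := by intro c b; simp }
  obtain ⟨a, ha⟩ := hsurj F
  refine ⟨a, a.2, L.sub_mem hz (hI.1 a.2), fun y hy => ?_⟩
  have := congrArg (fun f : Module.Dual K I => f ⟨y, hy⟩) ha
  have h1 : LinearMap.trace K V ((a : Module.End K V) * y) = LinearMap.trace K V (z * y) := this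
  rw [sub_mul, map_sub, h1, sub_self]

namespace UStr
variable {ω : LinearMap.BilinForm K V} {z : Module.End K V} {G : Set (Module.End K V)}
  {T : Set (Module.End K V ≃+* Module.End K V)} {p0 : Module.End K V} (D : UStr ω z G T p0)
include D

/-- The eigenspace is not zero. -/
lemma wz_ne [CharZero K] : Nontrivial (Wz z) := by
  by_contra hcon
  rw [not_nontrivial_iff_subsingleton] at hcon
  -- then `z = -1`, which is not skew
  obtain ⟨v, w, hw⟩ := D.exists_ne_form
  have h1 : ∀ v, z v = -v := by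
    intro v
    have h2 : (⟨pp z v, pp_mem D.zz v⟩ : Wz z) = 0 := Subsingleton.elim _ _
    have h3 : pp z v = 0 := congrArg Subtype.val h2
    unfold pp at h3
    rw [LinearMap.smul_apply, LinearMap.add_apply, Module.End.one_apply] at h3
    have h4 := (smul_eq_zero.mp h3).resolve_left (inv_ne_zero two_ne_zero)
    exact eq_neg_of_add_eq_zero_right h4
  have h2 := D.zsk v w
  rw [h1, h1, map_neg, map_neg, LinearMap.neg_apply, neg_neg] at h2
  have h3 : (2 : K) * ω v w = 0 := by linear_combination -h2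
  exact hw ((mul_eq_zero.mp h3).resolve_left two_ne_zero)

/-- The restriction of the Lie algebra to the eigenspace. -/
noncomputable def LS (D : UStr ω z G T p0) [CharZero K] :
    Submodule K (Module.End K (Wz z)) :=
  (UL ω z G T p0).map (RR D.zz)

lemma ls_br [CharZero K] : ∀ x ∈ D.LS, ∀ y ∈ D.LS, x * y - y * x ∈ D.LS := by
  rintro _ ⟨x, hx, rfl⟩ _ ⟨y, hy, rfl⟩
  refine ⟨x * y - y * x, D.ul_br hx hy, ?_⟩
  rw [map_sub, RR_mul D.zz (D.ul_inC hy).1.comm, RR_mul D.zz (D.ul_inC hx).1.comm]

lemma ls_tr [CharZero K] : ∀ x ∈ D.LS, LinearMap.trace K (Wz z) x = 0 := by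
  rintro _ ⟨x, hx, rfl⟩
  rw [RR_trace D.zz (D.ul_inC hx).1.comm, (D.ul_inC hx).2,
    trace_eq_zero_of_sk D.nd (D.ul_inC hx).1.sk, add_zero, mul_zero]

lemma ls_irr [CharZero K] (U : Submodule K (Wz z)) (hU : ∀ x ∈ D.LS, ∀ w ∈ U, x w ∈ U) :
    U = ⊥ ∨ U = ⊤ := by
  rcases D.ul_irr (U.map (Wz z).subtype) (by
    rintro _ ⟨w, -, rfl⟩
    exact w.2) (by
    rintro x hx _ ⟨w, hw, rfl⟩
    refine ⟨RR D.zz x w, hU _ ⟨x, hx, rfl⟩ w hw, ?_⟩
    exact RR_coe D.zz (D.ul_inC hx).1.comm w) with h | h
  · left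
    rw [eq_bot_iff]
    intro w hw
    have h2 : (w : V) ∈ U.map (Wz z).subtype := ⟨w, hw, rfl⟩
    rw [h, Submodule.mem_bot] at h2
    exact Subtype.ext h2
  · right
    rw [eq_top_iff]
    rintro ⟨v, hv⟩ -
    rw [← h] at hv
    obtain ⟨w, hw, hwv⟩ := hv
    have : w = ⟨v, by rw [← hwv]; exact w.2⟩ := Subtype.ext hwv
    rw [← this]; exact hw

/-- The restriction as a Lie algebra. -/
noncomputable def LW (D : UStr ω z G T p0) [CharZero K] :
    LieSubalgebra K (Module.End K (Wz z)) := toLie D.LS D.ls_br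

lemma mem_LW [CharZero K] {x : Module.End K (Wz z)} : x ∈ D.LW ↔ x ∈ D.LS := Iff.rfl

/-- Nondegeneracy of the trace form on ideals. -/
lemma ul_nd [IsAlgClosed K] [CharZero K] (I : Submodule K (Module.End K V))
    (hI : IsId (UL ω z G T p0) I) (x : Module.End K V) (hx : x ∈ I)
    (hx' : x ∈ orth (UL ω z G T p0) I) : x = 0 := by
  have hO := orth_isId (fun x hx y hy => D.ul_br hx hy) hI
  let R' : LieIdeal K D.LW :=
    { carrier := {y | ∃ a ∈ I ⊓ orth (UL ω z G T p0) I, RR D.zz a = (y : Module.End K (Wz z))}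
      add_mem' := by
        rintro a b ⟨a', ha, ha'⟩ ⟨b', hb, hb'⟩
        exact ⟨a' + b', Submodule.add_mem _ ha hb, by rw [map_add, ha', hb']; rfl⟩
      zero_mem' := ⟨0, Submodule.zero_mem _, by rw [map_zero]; rfl⟩
      smul_mem' := by
        rintro c a ⟨a', ha, ha'⟩
        exact ⟨c • a', Submodule.smul_mem _ _ ha, by rw [map_smul, ha']; rfl⟩
      lie_mem := by
        rintro ⟨_, x, hx, rfl⟩ m ⟨a, ⟨ha1, ha2⟩, ham⟩
        refine ⟨x * a - a * x, ⟨hI.2 x hx a ha1, hO.2 x hx a ha2⟩, ?_⟩
        rw [map_sub, RR_mul D.zz (D.ul_inC (hI.1 ha1)).1.comm, RR_mul D.zz (D.ul_inC hx).1.comm,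
          ham]
        rfl }
  have hbot := ideal_eq_bot D.LW (fun W hW => D.ls_irr W hW) (fun y hy => D.ls_tr y hy) R' (by
    rintro ⟨y, hy⟩ ⟨a, ⟨ha1, ha2⟩, ha⟩ ⟨y', hy'⟩ ⟨b, ⟨hb1, hb2⟩, hb⟩
    change RR D.zz a = y at ha
    change RR D.zz b = y' at hb
    change LinearMap.trace K (Wz z) (y * y') = 0
    rw [← ha, ← hb, trace_RR_mul D.nd D.zz D.zsk (D.ul_inC (hI.1 ha1)).1
      (D.ul_inC (hI.1 hb1)).1, ha2.2 b hb1, mul_zero])
  have h1 : (⟨RR D.zz x, x, hI.1 hx, rfl⟩ : D.LW) ∈ R' := ⟨x, ⟨hx, hx'⟩, rfl⟩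
  rw [hbot, LieSubmodule.mem_bot] at h1
  have h2 : RR D.zz x = 0 := congrArg Subtype.val h1
  exact (D.ul_inC (hI.1 hx)).1.eq_zero D.nd D.zz D.zsk h2

/-- An element commuting with the Lie algebra. -/
lemma comm_zero [IsAlgClosed K] [CharZero K] {x : Module.End K V} (hx : InC ω z x)
    (htr : LinearMap.trace K V (z * x) = 0)
    (h : ∀ y ∈ UL ω z G T p0, x * y = y * x) : x = 0 := by
  have := D.wz_ne
  obtain ⟨c, hc⟩ := schur (S := (D.LS : Set (Module.End K (Wz z)))) (fun U hU => D.ls_irr U hU)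
    (x := RR D.zz x) (by
      rintro _ ⟨y, hy, rfl⟩
      rw [← RR_mul D.zz (D.ul_inC hy).1.comm, ← RR_mul D.zz hx.comm, h y hy])
  have h1 := RR_trace D.zz hx.comm
  rw [htr, trace_eq_zero_of_sk D.nd hx.sk, add_zero, mul_zero, hc, map_smul, LinearMap.trace_one,
    smul_eq_mul] at h1
  have hn : (finrank K (Wz z) : K) ≠ 0 := by
    rw [Nat.cast_ne_zero]; exact Module.finrank_pos.ne'
  have hc0 := (mul_eq_zero.mp h1).resolve_right hn
  apply hx.eq_zero D.nd D.zz D.zsk
  rw [hc, hc0, zero_smul]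

/-- The Lie algebra is reductive in the sense of `Red`. -/
lemma red [IsAlgClosed K] [CharZero K] : Red (UL ω z G T p0) where
  br := fun x hx y hy => D.ul_br hx hy
  nd := D.ul_nd
  cen := fun x hx h => D.comm_zero (D.ul_inC hx).1 (D.ul_inC hx).2 h
  star := by
    intro I hI x hx y hy hxy
    have hO := orth_isId (fun x hx y hy => D.ul_br hx hy) hI
    have P : Pr (Algebra.adjoin K ((I.map (RR D.zz) : Submodule K _) :
        Set (Module.End K (Wz z)))) (Algebra.adjoin K
          (((orth (UL ω z G T p0) I).map (RR D.zz) : Submodule K _) :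
            Set (Module.End K (Wz z)))) := by
      constructor
      · intro a ha b hb
        have h1 : Commute a b := by
          apply Algebra.commute_of_mem_adjoin_of_forall_mem_commute hb
          rintro _ ⟨y, hy, rfl⟩
          apply Commute.symm
          apply Algebra.commute_of_mem_adjoin_of_forall_mem_commute ha
          rintro _ ⟨x, hx, rfl⟩
          change RR D.zz y * RR D.zz x = RR D.zz x * RR D.zz y
          rw [← RR_mul D.zz (D.ul_inC (hI.1 hx)).1.comm,
            ← RR_mul D.zz (D.ul_inC (hO.1 hy)).1.comm,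
            orth_comm_of (fun x hx y hy => D.ul_br hx hy) D.ul_nd hI hx hy]
        exact h1
      · intro W h1 h2
        apply D.ls_irr W
        rintro _ ⟨x, hx, rfl⟩ w hw
        obtain ⟨a, ha, hb⟩ := sup_orth_of D.ul_nd hI hx
        have e : RR D.zz x w = RR D.zz a w + RR D.zz (x - a) w := by
          rw [map_sub, LinearMap.sub_apply]; abel
        rw [e]
        exact W.add_mem (h1 _ (Algebra.subset_adjoin ⟨a, ha, rfl⟩) w hw)
          (h2 _ (Algebra.subset_adjoin ⟨_, hb, rfl⟩) w hw)
    have h1 : RR D.zz x * RR D.zz y = 0 := by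
      rw [← RR_mul D.zz (D.ul_inC (hO.1 hy)).1.comm, hxy, map_zero]
    rcases P.star (Algebra.subset_adjoin ⟨x, hx, rfl⟩) (Algebra.subset_adjoin ⟨y, hy, rfl⟩) h1
      with h | h
    · left; exact (D.ul_inC (hI.1 hx)).1.eq_zero D.nd D.zz D.zsk h
    · right; exact (D.ul_inC (hO.1 hy)).1.eq_zero D.nd D.zz D.zsk h

/-- Elements normalising the Lie algebra. -/
lemma mem_of_normalize [IsAlgClosed K] [CharZero K] {N : Module.End K V} (hN : InC ω z N)
    (htr : LinearMap.trace K V (z * N) = 0)
    (hnorm : ∀ x ∈ UL ω z G T p0, N * x - x * N ∈ UL ω z G T p0) : N ∈ UL ω z G T p0 := by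
  set L := UL ω z G T p0 with hL
  have hnd : ∀ x ∈ L, (∀ y ∈ L, LinearMap.trace K V (x * y) = 0) → x = 0 := by
    intro x hx h
    exact D.ul_nd L ⟨le_rfl, fun x hx y hy => D.ul_br hx hy⟩ x hx ⟨hx, h⟩
  let Φ : L →ₗ[K] Module.Dual K L :=
    { toFun := fun a =>
        { toFun := fun b => LinearMap.trace K V ((a : Module.End K V) * (b : Module.End K V))
          map_add' := by intro b c; simp [mul_add]
          map_smul' := by intro c b; simp }
      map_add' := by intro a b; ext c; simp [add_mul]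
      map_smul' := by intro c a; ext b; simp }
  have hinj : Function.Injective Φ := by
    rw [injective_iff_map_eq_zero]
    intro a ha
    apply Subtype.ext
    apply hnd _ a.2
    intro y hy
    exact congrArg (fun φ => φ ⟨y, hy⟩) ha
  have hfin : finrank K L = finrank K (Module.Dual K L) := Subspace.dual_finrank_eq.symm
  have hsurj : Function.Surjective Φ :=
    (LinearMap.injective_iff_surjective_of_finrank_eq_finrank hfin).mp hinj
  let ψ : Module.Dual K L :=
    { toFun := fun b => LinearMap.trace K V (N * (b : Module.End K V))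
      map_add' := by intro b c; simp [mul_add]
      map_smul' := by intro c b; simp }
  obtain ⟨n0, hn0⟩ := hsurj ψ
  set d := N - (n0 : Module.End K V) with hd
  have key : ∀ b ∈ L, LinearMap.trace K V (d * b) = 0 := by
    intro b hb
    have := congrArg (fun φ => φ ⟨b, hb⟩) hn0
    change LinearMap.trace K V ((n0 : Module.End K V) * b) = LinearMap.trace K V (N * b) at this
    rw [hd, sub_mul, map_sub, this, sub_self]
  have hcomm : ∀ x ∈ L, d * x = x * d := by
    intro x hx
    have hc : d * x - x * d ∈ L := by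
      have : d * x - x * d = (N * x - x * N) - ((n0 : Module.End K V) * x - x * n0) := by
        rw [hd]; noncomm_ring
      rw [this]
      exact L.sub_mem (hnorm x hx) (D.ul_br n0.2 hx)
    rw [← sub_eq_zero]
    apply hnd _ hc
    intro y hy
    have h1 := key _ (D.ul_br hx hy)
    have e1 : LinearMap.trace K V (x * d * y) = LinearMap.trace K V (d * (y * x)) := by
      rw [mul_assoc, LinearMap.trace_mul_comm, mul_assoc]
    rw [sub_mul, map_sub, e1, ← map_sub]
    rw [mul_sub, ← mul_assoc] at h1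
    exact h1
  have hdC : InC ω z d := hN.sub (D.ul_inC n0.2).1
  have hdt : LinearMap.trace K V (z * d) = 0 := by
    rw [hd, mul_sub, map_sub, htr, (D.ul_inC n0.2).2, sub_self]
  have hd0 := D.comm_zero hdC hdt hcomm
  rw [hd, sub_eq_zero] at hd0
  rw [hd0]; exact n0.2

/-- The nilpotent part of a quadratic unipotent element of `G` lies in the Lie algebra. -/
lemma quad_mem [IsAlgClosed K] [CharZero K] {u : Module.End K V} (hu : u ∈ G)
    (hN : (u - 1) * (u - 1) = 0) : u - 1 ∈ UL ω z G T p0 := by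
  obtain ⟨u', hu', huu, huu'⟩ := D.inv u hu
  have huz := D.gz u hu
  set N := u - 1 with hNdef
  have huN : u = 1 + N := by rw [hNdef]; abel
  have huN' : u' = 1 - N := by
    have e2 : u * (1 - N) = 1 := by
      have e3 : (1 + N) * (1 - N) = 1 - N * N := by
        simp only [mul_sub, add_mul, mul_one, one_mul]; abel
      rw [huN, e3, hN, sub_zero]
    calc u' = u' * (u * (1 - N)) := by rw [e2, mul_one]
      _ = _ := by rw [← mul_assoc, huu', one_mul]
  obtain ⟨c, hc⟩ := D.sim u hu
  obtain ⟨c', hc'⟩ := D.sim u' hu'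
  have hcc : c * c' = 1 := by
    obtain ⟨v, w, hw⟩ := D.exists_ne_form
    have h1 : ∀ x, u (u' x) = x := fun x => LinearMap.congr_fun huu x
    have e1 := hc (u' v) (u' w)
    rw [h1, h1, hc'] at e1
    have e2 : (c * c' - 1) * ω v w = 0 := by linear_combination -e1
    have e3 := (mul_eq_zero.mp e2).resolve_right hw
    linear_combination e3
  have hsk : IsSk ω N := by
    apply quad_skew hN (c := c) (c' := c') _ _ hcc D.nd
    · intro v w; rw [← huN]; exact hc v w
    · intro v w; rw [← huN']; exact hc' v w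
  have hNz : N * z = z * N := by
    rw [hNdef, sub_mul, mul_sub, one_mul, mul_one, huz]
  have htr : LinearMap.trace K V (z * N) = 0 := by
    have hnil : IsNilpotent (z * N) := by
      refine ⟨2, ?_⟩
      calc (z * N) ^ 2 = z * (N * z) * N := by noncomm_ring
        _ = z * z * (N * N) := by rw [hNz]; noncomm_ring
        _ = 0 := by rw [hN, mul_zero]
    exact (LinearMap.isNilpotent_trace_of_isNilpotent hnil).eq_zero
  apply D.mem_of_normalize ⟨hsk, hNz⟩ htr
  intro x hx
  have h1 := D.lie_conj hu hu' huu huu' hx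
  have h2 := D.lie_conj hu' hu huu' huu hx
  rw [huN', huN] at h1 h2
  have h3 := (UL ω z G T p0).smul_mem (2 : K)⁻¹ ((UL ω z G T p0).sub_mem h1 h2)
  have e : (1 + N) * x * (1 - N) - (1 - N) * x * (1 + N) =
      (2 : K) • (N * x - x * N) := by
    have : (1 + N) * x * (1 - N) - (1 - N) * x * (1 + N) =
      (N * x - x * N) + (N * x - x * N) := by
      simp only [mul_sub, sub_mul, mul_add, add_mul, mul_one, one_mul, mul_assoc]; abel
    rw [this, two_smul]
  rw [e, smul_smul, inv_mul_cancel₀ two_ne_zero, one_smul] at h3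
  exact h3

/-- Noncommuting elements. -/
lemma exists_not_comm [IsAlgClosed K] [CharZero K] {x : Module.End K V}
    (hx : x ∈ UL ω z G T p0) (hx0 : x ≠ 0) : ∃ y ∈ UL ω z G T p0, x * y - y * x ≠ 0 := by
  by_contra hcon
  push Not at hcon
  apply hx0
  exact D.comm_zero (D.ul_inC hx).1 (D.ul_inC hx).2 (fun y hy => sub_eq_zero.mp (hcon y hy))

/-- Simplicity of the restriction. -/
lemma ls_smp [IsAlgClosed K] [CharZero K] (hs : Smp (UL ω z G T p0)) : Smp D.LS := by
  intro M hM hid
  let M' : Submodule K (Module.End K V) := (UL ω z G T p0) ⊓ M.comap (RR D.zz)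
  rcases hs M' inf_le_left (by
    rintro x hx y ⟨hy1, hy2⟩
    refine ⟨D.ul_br hx hy1, ?_⟩
    change RR D.zz (x * y - y * x) ∈ M
    rw [map_sub, RR_mul D.zz (D.ul_inC hy1).1.comm, RR_mul D.zz (D.ul_inC hx).1.comm]
    exact hid _ ⟨x, hx, rfl⟩ _ hy2) with h | h
  · left
    rw [eq_bot_iff]
    intro y hy
    obtain ⟨x, hx, rfl⟩ := hM hy
    have h1 : x ∈ M' := ⟨hx, hy⟩
    rw [h, Submodule.mem_bot] at h1
    rw [Submodule.mem_bot, h1, map_zero]
  · right
    apply le_antisymm hM
    rintro _ ⟨x, hx, rfl⟩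
    have h1 : x ∈ M' := by rw [h]; exact hx
    exact h1.2

lemma lw_simple [IsAlgClosed K] [CharZero K] (hs : Smp (UL ω z G T p0))
    {x : Module.End K V} (hx : x ∈ UL ω z G T p0) (hx0 : x ≠ 0) :
    LieAlgebra.IsSimple K D.LW := by
  obtain ⟨y, hy, hxy⟩ := D.exists_not_comm hx hx0
  refine toLie_simple D.ls_br (D.ls_smp hs) (x := RR D.zz x) (y := RR D.zz y) ⟨x, hx, rfl⟩
    ⟨y, hy, rfl⟩ ?_
  rw [← RR_mul D.zz (D.ul_inC hy).1.comm, ← RR_mul D.zz (D.ul_inC hx).1.comm, ← map_sub]
  intro h
  exact hxy ((D.ul_inC (D.ul_br hx hy)).1.eq_zero D.nd D.zz D.zsk h)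

/-- A simple Lie algebra is spanned by brackets. -/
lemma ul_der [IsAlgClosed K] [CharZero K] (hs : Smp (UL ω z G T p0))
    {x : Module.End K V} (hx : x ∈ UL ω z G T p0) :
    x ∈ Submodule.span K {w | ∃ x ∈ UL ω z G T p0, ∃ y ∈ UL ω z G T p0,
      w = x * y - y * x} := by
  set M := Submodule.span K {w | ∃ x ∈ UL ω z G T p0, ∃ y ∈ UL ω z G T p0,
      w = x * y - y * x} with hM
  have hML : M ≤ UL ω z G T p0 := by
    rw [hM, Submodule.span_le]
    rintro _ ⟨x, hx, y, hy, rfl⟩
    exact D.ul_br hx hy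
  rcases hs M hML (by
    intro x hx y hy
    exact Submodule.subset_span ⟨x, hx, y, hML hy, rfl⟩) with h | h
  · by_cases hx0 : x = 0
    · rw [hx0]; exact Submodule.zero_mem _
    · exfalso
      obtain ⟨y, hy, hxy⟩ := D.exists_not_comm hx hx0
      apply hxy
      have h1 : x * y - y * x ∈ M := Submodule.subset_span ⟨x, hx, y, hy, rfl⟩
      rw [h, Submodule.mem_bot] at h1
      exact h1
  · rw [h]; exact hx

end UStr

end UN
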