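import Pool.Agent.Helper2.UN.U2
import Pool.Agent.Helper75.UN.SR

/-!
The Lie algebra of a unitary pair is simple.
-/

set_option linter.unusedSimpArgs false
set_option linter.unusedSectionVars false
set_option linter.unusedVariables false

open Module

namespace UN

open MTP

variable {K : Type*} [Field K] {V : Type*} [AddCommGroup V] [Module K V] [FiniteDimensional K V]

/-- The square of a generator. -/
lemma nz_sq [CharZero K] {z s : Module.End K V} (hzz : z * z = 1) (hss : s * s = 1)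
    (hc : s * z = z * s) : ∃ l : K,
      nz z s * nz z s = (1 - l ^ 2) • 1 + ((-2 * l) • z) * nz z s := by
  refine ⟨LinearMap.trace K V (z * s) / (finrank K V : K), ?_⟩
  unfold nz
  generalize LinearMap.trace K V (z * s) / (finrank K V : K) = l
  simp only [mul_sub, sub_mul, smul_mul_assoc, mul_smul_comm, hzz, hss, hc]
  module

namespace UStr
variable {ω : LinearMap.BilinForm K V} {z : Module.End K V} {G : Set (Module.End K V)}
  {T : Set (Module.End K V ≃+* Module.End K V)} {p0 : Module.End K V} (D : UStr ω z G T p0)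
include D

/-- The Lie algebra is zero when `p0` is zero or one. -/
lemma ul_bot [CharZero K] (h : ¬ IsSk ω ((2 : K) • p0 - 1)) : UL ω z G T p0 = ⊥ := by
  have hid : p0 ∈ SC G T p0 := ⟨_, D.tone, 1, D.one, 1, D.one, by simp, by simp, by simp⟩
  have hno : ∀ p ∈ SC G T p0, ¬ IsSk ω ((2 : K) • p - 1) := by
    rcases D.c2 hid with h0 | h0 | h1
    · exact absurd h0 h
    · rintro p ⟨τ, hτ, g, hg, h, hh, hgh, hhg, rfl⟩ hsk
      apply (D.sk_ne_zero hsk).1
      rw [h0, map_zero]; simp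
    · rintro p ⟨τ, hτ, g, hg, h, hh, hgh, hhg, rfl⟩ hsk
      apply (D.sk_ne_zero hsk).2
      rw [h1, map_one, mul_one, hgh]
  rw [eq_bot_iff]
  apply lieGen_le
  · intro x hx y hy
    rw [Submodule.mem_bot] at *
    rw [hx, hy]; simp
  · rintro _ ⟨s, ⟨p, hp, hsk, rfl⟩, rfl⟩
    exact absurd hsk (hno p hp)

/-- Simplicity up to the symmetries. -/
lemma tsmp [IsAlgClosed K] [CharZero K] : TSmp (UL ω z G T p0) T := by
  intro M hM hMT
  have R := D.red
  by_cases hsk : IsSk ω ((2 : K) • p0 - 1)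
  · have hid : p0 ∈ SC G T p0 := ⟨_, D.tone, 1, D.one, 1, D.one, by simp, by simp, by simp⟩
    have hs : (2 : K) • p0 - 1 ∈ SI ω G T p0 := ⟨p0, hid, hsk, rfl⟩
    obtain ⟨l, hl⟩ := nz_sq (z := z) D.zz (D.si_sq hs) (D.si_inC hs).comm
    rcases R.sq_dich hM (s := nz z ((2 : K) • p0 - 1)) (subset_lieGen _ ⟨_, hs, rfl⟩)
      (w := (-2 * l) • z) (by
        intro x hx
        rw [smul_mul_assoc, mul_smul_comm, (D.ul_inC hx).1.comm]) hl with h | h
    · right
      exact le_antisymm hM.1 (D.id_top hM hMT hsk h)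
    · left
      have hN := orth_isId (fun x hx y hy => R.br x hx y hy) hM
      have hNT : ∀ τ ∈ T, ∀ x ∈ orth (UL ω z G T p0) M, τ x ∈ orth (UL ω z G T p0) M := by
        intro τ hτ x hx
        rw [R.mem_orth_iff hM (D.lie_tw hτ hx.1)]
        intro y hy
        have h1 := hMT _ (D.tinv τ hτ) y hy
        have h2 := (R.mem_orth_iff hM hx.1).mp hx _ h1
        have h3 := congrArg τ h2
        rwa [map_mul, map_mul, RingEquiv.apply_symm_apply] at h3
      have h1 := D.id_top hN hNT hsk h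
      rw [eq_bot_iff]
      intro x hx
      rw [Submodule.mem_bot]
      exact R.nd M hM x hx (h1 (hM.1 hx))
  · left
    rw [eq_bot_iff, ← D.ul_bot hsk]
    exact hM.1

/-- Rationality: the Lie algebra is simple. -/
lemma smp [IsAlgClosed K] [CharZero K]
    (hd : ∀ τ ∈ T, ∀ E : Finset (Module.End K V), ∃ τ' ∈ T, (∀ x ∈ E, τ' x = τ x) ∧
      ∃ u ∈ G, (u - 1) * (u - 1) = 0 ∧ u - 1 ≠ 0 ∧ τ' u = u) : Smp (UL ω z G T p0) := by
  apply D.red.smp_of_dense (fun τ hτ => D.isTw hτ) D.tsmp D.tmul D.tone D.tinv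
  intro τ hτ E
  obtain ⟨τ', hτ', h1, u, hu, h2, h3, h4⟩ := hd τ hτ E
  exact ⟨τ', hτ', h1, u - 1, D.quad_mem hu h2, h2, h3, by rw [map_sub, h4, map_one]⟩

/-- The idempotent is not trivial. -/
lemma skew_of [IsAlgClosed K] [CharZero K] {x : Module.End K V} (hx : x ∈ UL ω z G T p0)
    (hx0 : x ≠ 0) : IsSk ω ((2 : K) • p0 - 1) := by
  by_contra h
  rw [D.ul_bot h, Submodule.mem_bot] at hx
  exact hx0 hx

end UStr

end UN
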