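import Pool.Agent.Helper2.UN.U3
import Pool.Agent.Helper88.UN.LM

/-!
The group theorem for unitary pairs, abstract form.
-/

set_option linter.unusedSimpArgs false
set_option linter.unusedSectionVars false
set_option linter.unusedVariables false

open Module

attribute [local instance 100] LieRing.ofAssociativeRing

namespace UN

open MTP

variable {K : Type*} [Field K] {V : Type*} [AddCommGroup V] [Module K V] [FiniteDimensional K V]

namespace UStr
variable {ω : LinearMap.BilinForm K V} {z : Module.End K V} {G : Set (Module.End K V)}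
  {T : Set (Module.End K V ≃+* Module.End K V)} {p0 : Module.End K V} (D : UStr ω z G T p0)
include D

lemma p0_mem : p0 ∈ SC G T p0 :=
  ⟨_, D.tone, 1, D.one, 1, D.one, by simp, by simp, by simp⟩

lemma p0_comm [CharZero K] : p0 * z = z * p0 := D.sc_comm D.p0_mem

/-- The restriction of `p0` is idempotent. -/
lemma RR_p0 [CharZero K] : RR D.zz p0 * RR D.zz p0 = RR D.zz p0 := by
  rw [← RR_mul D.zz D.p0_comm, D.idem]

/-- **The group theorem, abstract form.** -/
theorem main [IsAlgClosed K] [CharZero K] (hs : Smp (UL ω z G T p0)) {u : Module.End K V}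
    (hu : u ∈ G) (hN : (u - 1) * (u - 1) = 0) (h0 : u - 1 ≠ 0)
    (hpq : 2 * MTP.rk (RR D.zz p0) ≠ finrank K (Wz z)) :
    (∀ φ : Module.End K (Wz z), LinearMap.trace K _ φ = 0 →
      φ ∈ (UL ω z G T p0).map (RR D.zz)) ∨
    ∃ n k, 2 ≤ k ∧ k + 2 ≤ n ∧ n ≠ 2 * k ∧ finrank K (Wz z) = n.choose k ∧
      MTP.rk (RR D.zz p0) = (n - 1).choose k ∧
      MTP.rk (u - 1) = 2 * (n - 2).choose (k - 1) := by
  have hnt := D.wz_ne
  have huL := D.quad_mem hu hN
  have huC := (D.ul_inC huL).1
  have hsk := D.skew_of huL h0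
  have hsI : (2 : K) • p0 - 1 ∈ SI ω G T p0 := ⟨p0, D.p0_mem, hsk, rfl⟩
  set n0 := nz z ((2 : K) • p0 - 1) with hn0
  have hn0L : n0 ∈ UL ω z G T p0 := subset_lieGen _ ⟨_, hsI, rfl⟩
  have hn0C := (D.ul_inC hn0L).1
  have hn00 : n0 ≠ 0 := by
    intro h
    have h1 : UL ω z G T p0 ≤ ⊥ := D.id_top (M := ⊥)
      ⟨bot_le, fun x hx y hy => by
        rw [Submodule.mem_bot] at *
        rw [hy]; simp⟩
      (fun τ hτ x hx => by
        rw [Submodule.mem_bot] at *
        rw [hx, map_zero]) hsk (by rw [← hn0, h]; exact Submodule.zero_mem _)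
    exact h0 ((Submodule.mem_bot K).mp (h1 huL))
  obtain ⟨l, hl⟩ : ∃ l : K, RR D.zz n0 = (2 : K) • RR D.zz p0 - (1 + l) • 1 := by
    refine ⟨LinearMap.trace K V (z * ((2 : K) • p0 - 1)) / (finrank K V : K), ?_⟩
    rw [hn0]
    unfold nz
    generalize LinearMap.trace K V (z * ((2 : K) • p0 - 1)) / (finrank K V : K) = l
    rw [map_sub, map_sub, map_smul, map_smul, RR_one, RR_z]
    module
  have hscal : ∀ c : K, RR D.zz n0 ≠ c • 1 := by
    intro c hc
    have h1 := D.ls_tr _ ⟨n0, hn0L, rfl⟩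
    rw [hc, map_smul, LinearMap.trace_one, smul_eq_mul] at h1
    have hn : (finrank K (Wz z) : K) ≠ 0 := by
      rw [Nat.cast_ne_zero]; exact Module.finrank_pos.ne'
    have hc0 := (mul_eq_zero.mp h1).resolve_right hn
    apply hn00
    apply hn0C.eq_zero D.nd D.zz D.zsk
    rw [hc, hc0, zero_smul]
  have hN0 : RR D.zz (u - 1) ≠ 0 := by
    intro h
    exact h0 (huC.eq_zero D.nd D.zz D.zsk h)
  rcases lie_main (L := D.LW) (fun W hW => D.ls_irr W hW) (fun y hy => D.ls_tr y hy)
      (D.lw_simple hs huL h0) (P := RR D.zz p0) D.RR_p0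
      (by
        intro h
        apply hscal (-(1 + l))
        rw [hl, h]; module)
      (by
        intro h
        apply hscal (1 - l)
        rw [hl, h]; module)
      (d := (1 + l) / 2)
      (by
        have h1 := D.LS.smul_mem (2 : K)⁻¹ (show RR D.zz n0 ∈ D.LS from ⟨n0, hn0L, rfl⟩)
        have e : (2 : K)⁻¹ • RR D.zz n0 = RR D.zz p0 - ((1 + l) / 2) • 1 := by
          rw [hl, smul_sub, smul_smul, smul_smul, inv_mul_cancel₀ two_ne_zero, one_smul,
            inv_mul_eq_div]
        rw [e] at h1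
        exact h1)
      hpq (N := RR D.zz (u - 1)) ⟨u - 1, huL, rfl⟩
      (by rw [← RR_mul D.zz huC.comm, hN, map_zero]) hN0 with h | ⟨n, k, h1, h2, h3, h4, h5, h6⟩
  · left
    intro φ hφ
    exact h φ hφ
  · right
    exact ⟨n, k, h1, h2, h3, h4, h5, by rw [huC.rk_eq D.nd D.zz D.zsk, h6]⟩

end UStr

end UN
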