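import Pool.Agent.Helper2.UN.U4
import Pool.Agent.Helper16.UN.GA
import Pool.Agent.Helper93.UN.GB
import Pool.Agent.Helper93.SR.RatFin

/-!
The group theorem for unitary pairs, matrix form.
-/

set_option linter.unusedSimpArgs false
set_option linter.unusedSectionVars false
set_option linter.unusedVariables false

open Module MTPairs

namespace UN

open MTP

section abs

variable {K : Type*} [Field K] {V : Type*} [AddCommGroup V] [Module K V] [FiniteDimensional K V]

/-- The image of the eigenspace. -/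
lemma map_Wz [CharZero K] {z x : Module.End K V} (hz : z * z = 1) (hx : x * z = z * x) :
    finrank K ((Wz z).map x) = MTP.rk (RR hz x) := by
  have h : (Wz z).map x = (LinearMap.range (RR hz x)).map (Wz z).subtype := by
    apply le_antisymm
    · rintro _ ⟨w, hw, rfl⟩
      exact ⟨RR hz x ⟨w, hw⟩, ⟨_, rfl⟩, RR_coe hz hx _⟩
    · rintro _ ⟨_, ⟨w, rfl⟩, rfl⟩
      exact ⟨w, w.2, (RR_coe hz hx w).symm⟩
  rw [h]
  unfold MTP.rk
  exact Submodule.finrank_map_subtype_eq _ _

/-- The images of both eigenspaces. -/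
lemma map_Wz_add [CharZero K] {ω : LinearMap.BilinForm K V} (hω : ω.Nondegenerate)
    {z p : Module.End K V} (hzz : z * z = 1) (hz : IsSk ω z) (hp : p * p = p)
    (hc : p * z = z * p) (hsk : IsSk ω ((2 : K) • p - 1)) :
    finrank K ((Wz z).map p) + finrank K ((Wz (-z)).map p) = finrank K (Wz z) := by
  have hzz' : -z * -z = 1 := by rw [neg_mul_neg, hzz]
  have hc' : p * -z = -z * p := by rw [mul_neg, neg_mul, hc]
  rw [map_Wz hzz hc, map_Wz hzz' hc']
  have h1 : RR hzz p * RR hzz p = RR hzz p := by rw [← RR_mul hzz hc, hp]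
  have h2 : RR hzz' p * RR hzz' p = RR hzz' p := by rw [← RR_mul hzz' hc', hp]
  have e1 := trace_idem h1
  have e2 := trace_idem h2
  have e3 := RR_trace hzz hc
  have e4 := RR_trace hzz' hc'
  have e5 := RR_trace hzz (x := (1 : Module.End K V)) (by rw [one_mul, mul_one])
  rw [RR_one, LinearMap.trace_one, LinearMap.trace_one, mul_one, trace_eq_zero_of_sk hω hz,
    add_zero] at e5
  have e6 := trace_eq_zero_of_sk hω hsk
  rw [map_sub, map_smul, LinearMap.trace_one, smul_eq_mul] at e6
  have e7 : ((MTP.rk (RR hzz p) + MTP.rk (RR hzz' p) : ℕ) : K) = (finrank K (Wz z) : ℕ) := by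
    rw [Nat.cast_add, ← e1, ← e2, e3, e4, e5, neg_mul, map_neg]
    linear_combination (2 : K)⁻¹ * e6
  exact_mod_cast e7

end abs

section mat

variable {K : Type*} [Field K] [IsAlgClosed K] [CharZero K] {m : Type*} [Fintype m]
  [DecidableEq m] {Γ : Subgroup (Equiv.Perm (m → K))} {J : Matrix m m K}
  {G : Subgroup (Matrix.GeneralLinearGroup m K)} {π : Matrix m m K} {W W' : Submodule K (m → K)}

omit [IsAlgClosed K] in
lemma Wz_neg_zW (h : IsCompl W W') : Wz (-zW h) = W' := by
  have e : -zW h = zW h.symm := by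
    have h1 : W.projection W' h + W'.projection W h.symm = 1 :=
      Submodule.projection_add_projection_eq_id h
    have h2 : W'.projection W h.symm = 1 - W.projection W' h := by rw [← h1]; abel
    unfold zW
    rw [h2]
    module
  rw [e, Wz_zW]

/-- **The group theorem.** -/
theorem unitary_main (D : IsStrongMTPair Γ J G π) (hW : IsUnitarySplit Γ J G W W') {t : ℕ}
    (ht : 0 < t) (hd : DenseQuad Γ G ⊤ t)
    (hpq : finrank K (W.map π.mulVecLin) ≠ finrank K (W'.map π.mulVecLin)) :
    ContainsSU J G W W' ∨ ∃ n k, 2 ≤ k ∧ k + 2 ≤ n ∧ n ≠ 2 * k ∧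
      finrank K (W.map π.mulVecLin) = (n - 1).choose k ∧
      finrank K (W'.map π.mulVecLin) = (n - 1).choose (k - 1) ∧
      t = 2 * (n - 2).choose (k - 1) := by
  by_cases hne : W = ⊥
  · exfalso
    apply hpq
    have htop : W' = ⊤ := by
      have h1 := hW.compl.sup_eq_top
      rwa [hne, bot_sup_eq] at h1
    have h0 : ∀ w : m → K, w = 0 := by
      intro w
      have h1 : J.mulVec w = 0 := by
        apply dotProduct_eq_zero
        intro v
        rw [dotProduct_comm]
        exact hW.iso' v (by rw [htop]; trivial) w (by rw [htop]; trivial)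
      exact Matrix.eq_zero_of_mulVec_eq_zero D.det h1
    have : Subsingleton (m → K) := ⟨fun a b => by rw [h0 a, h0 b]⟩
    rw [finrank_zero_of_subsingleton, finrank_zero_of_subsingleton]
  have U := ustr D hW hne
  have hde := dense_E D ht hd
  have hs := U.smp (by
    intro τ hτ E
    obtain ⟨τ', h1, h2, u, h3, h4, h5, -, h6⟩ := hde τ hτ E
    exact ⟨τ', h1, h2, u, h3, h4, h5, h6⟩)
  obtain ⟨-, -, -, u, hu, hu2, hu0, hut, -⟩ := hde _ U.tone ∅
  have huL := U.quad_mem hu hu2
  have hsk := U.skew_of huL hu0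
  have hadd := map_Wz_add U.nd U.zz U.zsk U.idem U.p0_comm hsk
  have hw1 : finrank K (W.map π.mulVecLin) = MTP.rk (RR U.zz (Matrix.toLin' π)) := by
    rw [← map_Wz U.zz U.p0_comm, Wz_zW]
    rfl
  have hw2 : finrank K (W'.map π.mulVecLin) =
      finrank K ((Wz (-zW hW.compl)).map (Matrix.toLin' π)) := by
    rw [Wz_neg_zW]
    rfl
  rw [← hw2, map_Wz U.zz U.p0_comm, ← hw1] at hadd
  rcases U.main hs hu hu2 hu0 (by
    rw [← hw1, ← hadd]
    omega) with h | ⟨n, k, h1, h2, h3, h4, h5, h6⟩
  · left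
    exact containsSU D hW hne U.zz (fun x hx => U.ul_der hs hx) h
  · right
    refine ⟨n, k, h1, h2, h3, by rw [hw1, h5], ?_, by rw [← hut, h6]⟩
    rw [← hw1] at h5
    rw [h5, h4] at hadd
    have h7 : n.choose k = (n - 1).choose (k - 1) + (n - 1).choose k := by
      obtain ⟨n', rfl⟩ : ∃ n', n = n' + 1 := ⟨n - 1, by omega⟩
      obtain ⟨k', rfl⟩ : ∃ k', k = k' + 1 := ⟨k - 1, by omega⟩
      exact Nat.choose_succ_succ n' k'
    omega

end mat

end UN
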