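import Pool.Agent.Helper2.UN.U5
import Pool.Agent.Helper4.UN.E1

/-!
Unitary pairs: the exact criterion.
-/

open Module MTPairs

namespace UN

open MTP

/-- **The exact criterion.** -/
theorem unitary_criterion {K : Type*} [Field K] [IsAlgClosed K] [CharZero K]
    (R : Set (ℕ × ℕ × ℕ)) (hR : ∀ p q t, (p, q, t) ∈ R → p ≠ q ∧ 0 < t) :
    (∀ (m : Type) [Fintype m] [DecidableEq m] (Γ : Subgroup (Equiv.Perm (m → K)))
      (J : Matrix m m K) (G : Subgroup (Matrix.GeneralLinearGroup m K)) (π : Matrix m m K)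
      (W W' : Submodule K (m → K)), IsStrongMTPair Γ J G π → IsUnitarySplit Γ J G W W' →
      (∃ t, DenseQuad Γ G ⊤ t ∧
        (finrank K (W.map π.mulVecLin), finrank K (W'.map π.mulVecLin), t) ∈ R) →
      ContainsSU J G W W') ↔
    ∀ n k, 2 ≤ k → k + 2 ≤ n →
      ((n - 1).choose (k - 1), (n - 1).choose k, 2 * (n - 2).choose (k - 1)) ∉ R := by
  constructor
  · intro h n k hk hn hmem
    obtain ⟨m, _, _, J, G, π, W, W', h1, h2, h3, h4, h5, h6⟩ := exists_wedge K hk hn
    apply h6
    apply h m ⊥ J G π W W' h1 h2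
    refine ⟨_, dense_bot h5, ?_⟩
    rw [h3, h4]
    exact hmem
  · rintro h m _ _ Γ J G π W W' D hW ⟨t, hd, hmem⟩
    obtain ⟨hpq, ht⟩ := hR _ _ _ hmem
    rcases unitary_main D hW ht hd hpq with h1 | ⟨n, k, h1, h2, h3, h4, h5, h6⟩
    · exact h1
    · exfalso
      apply h n (n - k) (by omega) (by omega)
      rw [h4, h5, h6] at hmem
      have e1 : (n - 1).choose (n - k - 1) = (n - 1).choose k := by
        have : n - k - 1 = n - 1 - k := by omega
        rw [this, Nat.choose_symm (by omega)]
      have e2 : (n - 1).choose (n - k) = (n - 1).choose (k - 1) := by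
        have : n - k = n - 1 - (k - 1) := by omega
        rw [this, Nat.choose_symm (by omega)]
      have e3 : (n - 2).choose (n - k - 1) = (n - 2).choose (k - 1) := by
        have : n - k - 1 = n - 2 - (k - 1) := by omega
        rw [this, Nat.choose_symm (by omega)]
      rw [e1, e2, e3]
      exact hmem

end UN
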