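import Pool.Agent.Helper2.UN.U4

/-!
Invariant forms on the eigenspace, when the signature is balanced.
-/

set_option linter.unusedSimpArgs false
set_option linter.unusedSectionVars false
set_option linter.unusedVariables false

open Module

namespace UN

open MTP

variable {K : Type*} [Field K] {V : Type*} [AddCommGroup V] [Module K V] [FiniteDimensional K V]

lemma pp_z [CharZero K] {z : Module.End K V} (hz : z * z = 1) : pp z * z = pp z := by
  unfold pp
  rw [smul_mul_assoc, add_mul, hz, one_mul, add_comm]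

/-- The projection to the eigenspace, as a map to the eigenspace. -/
noncomputable def pr [CharZero K] {z : Module.End K V} (hz : z * z = 1) : V →ₗ[K] Wz z :=
  (pp z).codRestrict (Wz z) (fun v => pp_mem hz v)

lemma pr_coe [CharZero K] {z : Module.End K V} (hz : z * z = 1) (v : V) :
    ((pr hz v : Wz z) : V) = pp z v := rfl

lemma pr_mem [CharZero K] {z : Module.End K V} (hz : z * z = 1) (w : Wz z) :
    pr hz (w : V) = w := Subtype.ext (pp_of_mem w.2)

lemma pr_comm [CharZero K] {z x : Module.End K V} (hz : z * z = 1) (hx : x * z = z * x)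
    (v : V) : pr hz (x v) = RR hz x (pr hz v) := by
  apply Subtype.ext
  rw [RR_coe hz hx, pr_coe, pr_coe]
  have hcp : pp z * x = x * pp z := by
    unfold pp; rw [smul_mul_assoc, mul_smul_comm, add_mul, mul_add, hx, one_mul, mul_one]
  exact LinearMap.congr_fun hcp v

/-- The operator attached to a bilinear form on the eigenspace. -/
lemma exists_op [CharZero K] {ω : LinearMap.BilinForm K V} (hω : ω.Nondegenerate)
    {z : Module.End K V} (hz : z * z = 1) (hzs : IsSk ω z) (b : LinearMap.BilinForm K (Wz z)) :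
    ∃ f : Module.End K V, (∀ w v, ω (f w) v = b (pr hz w) (pr hz v)) ∧
      (∀ w, z (f w) = -f w) := by
  have hinj : Function.Injective (ω : V →ₗ[K] V →ₗ[K] K) := by
    rw [← LinearMap.ker_eq_bot, LinearMap.ker_eq_bot']
    intro m hm
    apply hω.1
    intro v
    rw [hm]; rfl
  have hsur : Function.Surjective (ω : V →ₗ[K] V →ₗ[K] K) :=
    (LinearMap.injective_iff_surjective_of_finrank_eq_finrank
      (Subspace.dual_finrank_eq (K := K) (V := V)).symm).mp hinj
  let e : V ≃ₗ[K] (V →ₗ[K] K) := LinearEquiv.ofBijective ω ⟨hinj, hsur⟩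
  let F : V →ₗ[K] (V →ₗ[K] K) := (b.compl₁₂ (pr hz) (pr hz))
  refine ⟨(e.symm : (V →ₗ[K] K) →ₗ[K] V) ∘ₗ F, ?_, ?_⟩
  · intro w v
    have h1 : e (e.symm (F w)) = F w := e.apply_symm_apply _
    exact LinearMap.congr_fun h1 v
  · have hf : ∀ w v, ω (((e.symm : (V →ₗ[K] K) →ₗ[K] V) ∘ₗ F) w) v =
        b (pr hz w) (pr hz v) := by
      intro w v
      have h1 : e (e.symm (F w)) = F w := e.apply_symm_apply _
      exact LinearMap.congr_fun h1 v
    intro w
    rw [← sub_eq_zero, sub_neg_eq_add]
    apply hω.1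
    intro v
    have h2 : pr hz (z v) = pr hz v := by
      apply Subtype.ext
      rw [pr_coe, pr_coe]
      exact LinearMap.congr_fun (pp_z hz) v
    rw [map_add, LinearMap.add_apply, hzs, hf, hf, h2]
    ring

namespace UStr
variable {ω : LinearMap.BilinForm K V} {z : Module.End K V} {G : Set (Module.End K V)}
  {T : Set (Module.End K V ≃+* Module.End K V)} {p0 : Module.End K V} (D : UStr ω z G T p0)
include D

/-- The traces of the involutions. -/
lemma tr_zero [CharZero K] (hsk0 : IsSk ω ((2 : K) • p0 - 1))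
    (h0 : LinearMap.trace K V (z * ((2 : K) • p0 - 1)) = 0) {s : Module.End K V}
    (hs : s ∈ SI ω G T p0) : LinearMap.trace K V (z * s) = 0 := by
  obtain ⟨p, ⟨τ, hτ, g, hg, h, hh, hgh, hhg, rfl⟩, hsk, rfl⟩ := hs
  have hs0 : (2 : K) • p0 - 1 ∈ SI ω G T p0 := ⟨p0, D.p0_mem, hsk0, rfl⟩
  obtain ⟨σ, hσ⟩ := D.semi τ hτ
  have e : (2 : K) • (g * τ p0 * h) - 1 = g * τ ((2 : K) • p0 - 1) * h := by
    rw [map_sub, map_one, hσ, mul_sub, sub_mul, mul_one, hgh, mul_smul_comm, smul_mul_assoc]
    congr 2
    exact (map_ofNat σ 2).symm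
  have h1 : LinearMap.trace K V (z * (g * τ ((2 : K) • p0 - 1) * h)) =
      LinearMap.trace K V (z * τ ((2 : K) • p0 - 1)) := by
    have e2 : z * (g * τ ((2 : K) • p0 - 1) * h) = g * (z * τ ((2 : K) • p0 - 1) * h) := by
      calc z * (g * τ ((2 : K) • p0 - 1) * h) = (z * g) * τ ((2 : K) • p0 - 1) * h := by
            simp only [mul_assoc]
        _ = (g * z) * τ ((2 : K) • p0 - 1) * h := by rw [D.gz g hg]
        _ = _ := by simp only [mul_assoc]
    rw [e2, LinearMap.trace_mul_comm, mul_assoc, hhg, mul_one]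
  rw [e, h1]
  have hss := D.si_sq hs0
  have hsz := (D.si_inC hs0).comm
  have hzs : z * ((2 : K) • p0 - 1) * (z * ((2 : K) • p0 - 1)) = 1 := by
    calc z * ((2 : K) • p0 - 1) * (z * ((2 : K) • p0 - 1))
        = z * (((2 : K) • p0 - 1) * z) * ((2 : K) • p0 - 1) := by simp only [mul_assoc]
      _ = (z * z) * (((2 : K) • p0 - 1) * ((2 : K) • p0 - 1)) := by
          rw [hsz]; simp only [mul_assoc]
      _ = 1 := by rw [D.zz, hss, one_mul]
  obtain ⟨h2, -⟩ := trace_invol hσ (D.rk τ hτ) hzs
  rcases D.tz τ hτ with h3 | h3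
  · have e3 : z * τ ((2 : K) • p0 - 1) = τ (z * ((2 : K) • p0 - 1)) := by rw [map_mul, h3]
    rw [e3, h2, h0]
  · have e3 : z * τ ((2 : K) • p0 - 1) = -τ (z * ((2 : K) • p0 - 1)) := by
      rw [map_mul, h3, neg_mul, neg_neg]
    rw [e3, map_neg, h2, h0, neg_zero]

/-- An invariant form on the eigenspace is zero, if the eigenspaces are not isomorphic. -/
lemma form_zero [CharZero K] (hsk0 : IsSk ω ((2 : K) • p0 - 1))
    (h0 : LinearMap.trace K V (z * ((2 : K) • p0 - 1)) = 0)
    (hni : ∀ f : Module.End K V, (∀ v, z (f v) = -f v) → (∀ g ∈ G, f * g = g * f) →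
      ∀ v ∈ Wz z, f v = 0)
    (b : LinearMap.BilinForm K (Wz z))
    (hb : ∀ y ∈ D.LS, ∀ u v, b (y u) v = - b u (y v)) : b = 0 := by
  obtain ⟨f, hf, hfz⟩ := exists_op D.nd D.zz D.zsk b
  have hcomm : ∀ x ∈ UL ω z G T p0, f * x = x * f := by
    intro x hx
    have hxC := (D.ul_inC hx).1
    apply LinearMap.ext
    intro w
    rw [← sub_eq_zero]
    apply D.nd.1
    intro v
    rw [map_sub, LinearMap.sub_apply, Module.End.mul_apply, Module.End.mul_apply, hf, hxC.sk, hf,
      pr_comm D.zz hxC.comm, pr_comm D.zz hxC.comm, hb _ ⟨x, hx, rfl⟩]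
    ring
  have hG : ∀ g ∈ G, f * g = g * f := by
    let M : Subalgebra K (Module.End K V) :=
      { carrier := {x | f * x = x * f}
        mul_mem' := by
          intro x y hx hy
          have hx' : f * x = x * f := hx
          have hy' : f * y = y * f := hy
          change f * (x * y) = x * y * f
          rw [← mul_assoc, hx', mul_assoc, hy', mul_assoc]
        one_mem' := by change f * 1 = 1 * f; rw [mul_one, one_mul]
        add_mem' := by
          intro x y hx hy
          have hx' : f * x = x * f := hx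
          have hy' : f * y = y * f := hy
          change f * (x + y) = (x + y) * f
          rw [mul_add, add_mul, hx', hy']
        zero_mem' := by change f * 0 = 0 * f; rw [mul_zero, zero_mul]
        algebraMap_mem' := by
          intro c
          change f * algebraMap K _ c = algebraMap K _ c * f
          exact (Algebra.commutes c f).symm }
    refine D.genA M ?_
    intro p hp
    change f * p = p * f
    rcases D.c2 hp with hsk | h | h
    · have hs : (2 : K) • p - 1 ∈ SI ω G T p0 := ⟨p, hp, hsk, rfl⟩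
      have ht := D.tr_zero hsk0 h0 hs
      have h1 := hcomm _ (subset_lieGen _ ⟨_, hs, rfl⟩)
      unfold nz at h1
      rw [ht, zero_div, zero_smul, sub_zero, mul_sub, sub_mul, mul_one, one_mul, mul_smul_comm,
        smul_mul_assoc] at h1
      have h2 := sub_left_injective h1
      have h3 := congrArg (fun y => (2 : K)⁻¹ • y) h2
      simp only [smul_smul, inv_mul_cancel₀ (two_ne_zero (α := K)), one_smul] at h3
      exact h3
    · rw [h]; simp
    · rw [h]; simp
  have hz := hni f hfz hG
  apply LinearMap.ext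
  intro u
  apply LinearMap.ext
  intro v
  have h1 := hf (u : V) (v : V)
  rw [pr_mem, pr_mem, hz _ u.2, map_zero, LinearMap.zero_apply] at h1
  rw [← h1]; rfl

end UStr

end UN
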